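import Mathlib

set_option autoImplicit false

namespace Pool.Agent.Helper688.LPres

section

variable {M : Type*} [Group M] {B : Subgroup M} {ψ : (⊤ : Subgroup M) ≃* B}

theorem t_pow_of (n : ℕ) (g : M) : ∃ h : M,
    (HNNExtension.t : HNNExtension M ⊤ B ψ) ^ n * HNNExtension.of g =
      HNNExtension.of h * HNNExtension.t ^ n := by
  induction n generalizing g with
  | zero => exact ⟨g, by simp⟩
  | succ n ih =>
    obtain ⟨h, hh⟩ := ih ((ψ ⟨g, trivial⟩ : B) : M)
    refine ⟨h, ?_⟩
    have h1 := HNNExtension.t_mul_of (φ := ψ) ⟨g, trivial⟩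
    calc (HNNExtension.t : HNNExtension M ⊤ B ψ) ^ (n + 1) * HNNExtension.of g
        = HNNExtension.t ^ n * (HNNExtension.t * HNNExtension.of g) := by
          rw [pow_succ, mul_assoc]
      _ = HNNExtension.t ^ n * (HNNExtension.of ((ψ ⟨g, trivial⟩ : B) : M) *
            HNNExtension.t) := by rw [← h1]
      _ = HNNExtension.of h * HNNExtension.t ^ n * HNNExtension.t := by
          rw [← mul_assoc, hh]
      _ = _ := by rw [mul_assoc, ← pow_succ]

theorem normal_form (x : HNNExtension M ⊤ B ψ) : ∃ (i j : ℕ) (g : M),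
    x = (HNNExtension.t ^ i)⁻¹ * HNNExtension.of g * HNNExtension.t ^ j := by
  induction x using HNNExtension.induction_on with
  | of g => exact ⟨0, 0, g, by simp⟩
  | t => exact ⟨0, 1, 1, by simp⟩
  | mul x y hx hy =>
    obtain ⟨i, j, g, rfl⟩ := hx
    obtain ⟨k, l, h, rfl⟩ := hy
    by_cases hjk : k ≤ j
    · obtain ⟨d, rfl⟩ := Nat.exists_eq_add_of_le hjk
      obtain ⟨h', hh⟩ := t_pow_of (ψ := ψ) d h
      refine ⟨i, d + l, g * h', ?_⟩
      have e1 : (HNNExtension.t : HNNExtension M ⊤ B ψ) ^ (k + d) * (HNNExtension.t ^ k)⁻¹ =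
          HNNExtension.t ^ d := by
        rw [add_comm, pow_add, mul_inv_cancel_right]
      calc (HNNExtension.t ^ i)⁻¹ * HNNExtension.of g * HNNExtension.t ^ (k + d) *
            ((HNNExtension.t ^ k)⁻¹ * HNNExtension.of h * HNNExtension.t ^ l)
          = (HNNExtension.t ^ i)⁻¹ * HNNExtension.of g * (HNNExtension.t ^ (k + d) *
            (HNNExtension.t ^ k)⁻¹) * HNNExtension.of h * HNNExtension.t ^ l := by
            simp only [mul_assoc]
        _ = (HNNExtension.t ^ i)⁻¹ * HNNExtension.of g * (HNNExtension.t ^ d *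
            HNNExtension.of h) * HNNExtension.t ^ l := by
            rw [e1]; simp only [mul_assoc]
        _ = _ := by rw [hh, map_mul, pow_add]; simp only [mul_assoc]
    · obtain ⟨d, rfl⟩ := Nat.exists_eq_add_of_le (le_of_not_ge hjk)
      obtain ⟨g', hg⟩ := t_pow_of (ψ := ψ) d g
      refine ⟨i + d, l, g' * h, ?_⟩
      have e1 : (HNNExtension.t : HNNExtension M ⊤ B ψ) ^ j * (HNNExtension.t ^ (j + d))⁻¹ =
          (HNNExtension.t ^ d)⁻¹ := by
        rw [pow_add, mul_inv_rev]
        have : Commute ((HNNExtension.t : HNNExtension M ⊤ B ψ) ^ j)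
          ((HNNExtension.t ^ d)⁻¹) := (Commute.pow_pow_self _ _ _).inv_right
        rw [← mul_assoc, this.eq, mul_inv_cancel_right]
      have e2 : (HNNExtension.of g : HNNExtension M ⊤ B ψ) * (HNNExtension.t ^ d)⁻¹ =
          (HNNExtension.t ^ d)⁻¹ * HNNExtension.of g' := by
        rw [mul_inv_eq_iff_eq_mul, mul_assoc, ← hg, inv_mul_cancel_left]
      calc (HNNExtension.t ^ i)⁻¹ * HNNExtension.of g * HNNExtension.t ^ j *
            ((HNNExtension.t ^ (j + d))⁻¹ * HNNExtension.of h * HNNExtension.t ^ l)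
          = (HNNExtension.t ^ i)⁻¹ * HNNExtension.of g * (HNNExtension.t ^ j *
            (HNNExtension.t ^ (j + d))⁻¹) * HNNExtension.of h * HNNExtension.t ^ l := by
            simp only [mul_assoc]
        _ = (HNNExtension.t ^ i)⁻¹ * (HNNExtension.of g * (HNNExtension.t ^ d)⁻¹) *
            HNNExtension.of h * HNNExtension.t ^ l := by
            rw [e1]; simp only [mul_assoc]
        _ = _ := by
            rw [e2, map_mul, add_comm i d, pow_add, mul_inv_rev]; simp only [mul_assoc]
  | inv x hx =>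
    obtain ⟨i, j, g, rfl⟩ := hx
    refine ⟨j, i, g⁻¹, ?_⟩
    simp only [mul_inv_rev, inv_inv, map_inv, mul_assoc]

end

theorem ascend {m : ℕ} (rels : Set (FreeGroup (Fin m))) (B : Subgroup (PresentedGroup rels))
    (ψ : (⊤ : Subgroup (PresentedGroup rels)) ≃* B) {G : Type*} [Group G]
    (e : G ≃* HNNExtension (PresentedGroup rels) ⊤ B ψ) :
    ∃ (f : FreeGroup (Fin m) →* G) (s : G) (χ : G →* Multiplicative ℤ),
      (∀ x, f x = 1 ↔ x ∈ Subgroup.normalClosure rels) ∧
      (∀ x, χ (f x) = 1) ∧ χ s ≠ 1 ∧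
      (∀ y : G, χ y = 1 → ∃ i : ℕ, ∀ n : ℕ, i ≤ n → ∃ x, s ^ n * y * (s ^ n)⁻¹ = f x) := by
  let χ : HNNExtension (PresentedGroup rels) ⊤ B ψ →* Multiplicative ℤ :=
    HNNExtension.lift 1 (Multiplicative.ofAdd 1) (by intro a; simp)
  have hχof : ∀ g, χ (HNNExtension.of g) = 1 := by
    intro g
    simp only [χ, HNNExtension.lift_of, MonoidHom.one_apply]
  have hχt : χ HNNExtension.t = Multiplicative.ofAdd 1 := by
    simp only [χ, HNNExtension.lift_t]
  refine ⟨e.symm.toMonoidHom.comp (HNNExtension.of.comp (PresentedGroup.mk rels)),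
    e.symm HNNExtension.t, χ.comp e.toMonoidHom, ?_, ?_, ?_, ?_⟩
  · intro x
    change e.symm (HNNExtension.of (PresentedGroup.mk rels x)) = 1 ↔ _
    rw [map_eq_one_iff e.symm e.symm.injective, map_eq_one_iff _
      (HNNExtension.of_injective (G := PresentedGroup rels) (A := ⊤) (B := B) (φ := ψ))]
    exact PresentedGroup.mk_eq_one_iff
  · intro x
    change χ (e (e.symm (HNNExtension.of (PresentedGroup.mk rels x)))) = 1
    rw [MulEquiv.apply_symm_apply, hχof]
  · change χ (e (e.symm HNNExtension.t)) ≠ 1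
    rw [MulEquiv.apply_symm_apply, hχt]
    decide
  · intro y hy
    change χ (e y) = 1 at hy
    obtain ⟨i, j, g, hg⟩ := normal_form (e y)
    rw [hg, map_mul, map_mul, map_inv, map_pow, map_pow, hχof, hχt, mul_one] at hy
    have hij : i = j := by
      have h1 : (Multiplicative.ofAdd (1 : ℤ)) ^ i = (Multiplicative.ofAdd (1 : ℤ)) ^ j :=
        inv_mul_eq_one.mp hy
      rw [← ofAdd_nsmul, ← ofAdd_nsmul] at h1
      have h2 := Multiplicative.ofAdd.injective h1
      simpa using h2
    subst hij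
    refine ⟨i, ?_⟩
    intro n hn
    obtain ⟨d, rfl⟩ := Nat.exists_eq_add_of_le hn
    obtain ⟨h, hh⟩ := t_pow_of (ψ := ψ) d g
    obtain ⟨x, rfl⟩ := PresentedGroup.mk_surjective (rels := rels) h
    refine ⟨x, ?_⟩
    apply e.injective
    change _ = e (e.symm (HNNExtension.of (PresentedGroup.mk rels x)))
    rw [MulEquiv.apply_symm_apply, map_mul, map_mul, map_inv, map_pow,
      MulEquiv.apply_symm_apply, hg]
    have e1 : (HNNExtension.t : HNNExtension (PresentedGroup rels) ⊤ B ψ) ^ (i + d) *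
        ((HNNExtension.t ^ i)⁻¹ * HNNExtension.of g * HNNExtension.t ^ i) *
        (HNNExtension.t ^ (i + d))⁻¹ = HNNExtension.t ^ d * HNNExtension.of g *
        (HNNExtension.t ^ d)⁻¹ := by
      have e2 : (HNNExtension.t : HNNExtension (PresentedGroup rels) ⊤ B ψ) ^ (i + d) =
          HNNExtension.t ^ d * HNNExtension.t ^ i := by rw [add_comm, pow_add]
      rw [e2]; group
    rw [e1, hh, mul_inv_cancel_right]

end Pool.Agent.Helper688.LPres
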