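import Mathlib

set_option autoImplicit false

namespace Pool.Agent.Helper688.LPres

/-! The normal closure of `a` is commutative. -/

section Step

variable {G : Type*} [Group G]

/-- `a` commutes with its conjugate by `g`. -/
def SC (a g : G) : Prop := Commute a (g * a * g⁻¹)

theorem SC_one (a : G) : SC a 1 := by
  unfold SC
  simp

theorem SC_inv {a g : G} (h : SC a g) : SC a g⁻¹ := by
  unfold SC at h ⊢
  have h1 := Commute.conj_iff (a := a) (b := g * a * g⁻¹) g⁻¹ |>.mpr h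
  have e1 : g⁻¹ * (g * a * g⁻¹) * g⁻¹⁻¹ = a := by group
  rw [e1] at h1
  exact h1.symm

theorem SC_comm_conj {a g h : G} (hs : SC a (g⁻¹ * h)) :
    Commute (g * a * g⁻¹) (h * a * h⁻¹) := by
  unfold SC at hs
  have h1 := Commute.conj_iff (a := a) (b := g⁻¹ * h * a * (g⁻¹ * h)⁻¹) g |>.mpr hs
  have e1 : g * (g⁻¹ * h * a * (g⁻¹ * h)⁻¹) * g⁻¹ = h * a * h⁻¹ := by group
  rwa [e1] at h1

theorem SC_step {a x X g : G} (hgx : Commute g x) (hgX : Commute g X)
    (hX : X * a * X⁻¹ = x * a * x⁻¹ * a) (h1 : SC a x) (h2 : SC a g) (h3 : SC a (x⁻¹ * g)) :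
    SC a (x * g) := by
  have hZ : (x * g) * a * (x * g)⁻¹ = g * (x * a * x⁻¹) * g⁻¹ := by
    have : x * g = g * x := hgx.symm.eq
    rw [this]; group
  have hPZ : Commute (x * a * x⁻¹) ((x * g) * a * (x * g)⁻¹) := by
    apply SC_comm_conj
    rw [inv_mul_cancel_left]; exact h2
  have hPW : Commute (x * a * x⁻¹) (g * a * g⁻¹) := SC_comm_conj h3
  have hPY : Commute (x * a * x⁻¹) a := h1.symm
  have hYW : Commute a (g * a * g⁻¹) := h2
  have hbig : Commute (x * a * x⁻¹ * a) (((x * g) * a * (x * g)⁻¹) * (g * a * g⁻¹)) := by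
    have h4 := Commute.conj_iff (a := a) (b := g * a * g⁻¹) X |>.mpr h2
    rw [hX] at h4
    have e2 : X * (g * a * g⁻¹) * X⁻¹ = ((x * g) * a * (x * g)⁻¹) * (g * a * g⁻¹) := by
      have e3 : X * (g * a * g⁻¹) * X⁻¹ = g * (X * a * X⁻¹) * g⁻¹ := by
        have : X * g = g * X := hgX.symm.eq
        have e4 : X * (g * a * g⁻¹) * X⁻¹ = (X * g) * a * (X * g)⁻¹ := by group
        rw [e4, this]; group
      rw [e3, hX, hZ]; group
    rwa [e2] at h4
  unfold SC
  set P := x * a * x⁻¹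
  set Z := (x * g) * a * (x * g)⁻¹
  set W := g * a * g⁻¹
  have h5 : P * a * (Z * W) = Z * W * (P * a) := hbig.eq
  have h6 : P * (a * (Z * W)) = P * (Z * (W * a)) := by
    calc P * (a * (Z * W)) = P * a * (Z * W) := by group
      _ = Z * W * (P * a) := h5
      _ = Z * (W * P) * a := by group
      _ = Z * (P * W) * a := by rw [hPW.eq]
      _ = (Z * P) * W * a := by group
      _ = (P * Z) * W * a := by rw [hPZ.eq]
      _ = P * (Z * (W * a)) := by group
  have h7 : a * (Z * W) = Z * (W * a) := mul_left_cancel h6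
  rw [← hYW.eq] at h7
  have h8 : (a * Z) * W = (Z * a) * W := by
    rw [mul_assoc a Z W, mul_assoc Z a W]; exact h7
  exact mul_right_cancel h8

theorem SC_line {a x X g : G} (hgx : Commute g x) (hgX : Commute g X) (hxX : Commute x X)
    (hX : X * a * X⁻¹ = x * a * x⁻¹ * a) (h1 : SC a x) (h2 : SC a g) (h3 : SC a (x * g))
    (n : ℤ) : SC a (x ^ n * g) := by
  have hup : ∀ n : ℤ, SC a (x ^ n * g) → SC a (x ^ (n + 1) * g) → SC a (x ^ (n + 2) * g) := by
    intro n ha hb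
    have e1 : x ^ (n + 2) * g = x * (x ^ (n + 1) * g) := by
      rw [← mul_assoc, ← zpow_one_add]; congr 2; ring
    rw [e1]
    apply SC_step (X := X) _ _ hX h1 hb
    · have e2 : x⁻¹ * (x ^ (n + 1) * g) = x ^ n * g := by
        rw [← mul_assoc, ← zpow_neg_one, ← zpow_add]; congr 2; ring
      rw [e2]; exact ha
    · exact Commute.mul_left ((Commute.refl x).zpow_left _) hgx
    · exact Commute.mul_left (hxX.zpow_left _) hgX
  have hdown : ∀ n : ℤ, SC a (x ^ n * g) → SC a (x ^ (n + 1) * g) → SC a (x ^ (n - 1) * g) := by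
    intro n ha hb
    have hc : ∀ m : ℤ, (x ^ m * g)⁻¹ = x ^ (-m) * g⁻¹ := by
      intro m
      rw [mul_inv_rev, zpow_neg]
      exact ((hgx.symm.zpow_left m).inv_inv).eq.symm
    have e1 : x ^ (n - 1) * g = (x ^ (-n + 1) * g⁻¹)⁻¹ := by
      have := hc (n - 1)
      rw [← inv_inv (x ^ (n - 1) * g), this]; congr 3; ring
    rw [e1]
    apply SC_inv
    have e2 : x ^ (-n + 1) * g⁻¹ = x * (x ^ (-n) * g⁻¹) := by
      rw [← mul_assoc, ← zpow_one_add]; congr 2; ring
    rw [e2]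
    apply SC_step (X := X) _ _ hX h1
    · have := SC_inv ha
      rwa [hc] at this
    · have e3 : x⁻¹ * (x ^ (-n) * g⁻¹) = x ^ (-(n + 1)) * g⁻¹ := by
        rw [← mul_assoc, ← zpow_neg_one, ← zpow_add]; congr 2; ring
      rw [e3]
      have := SC_inv hb
      rwa [hc] at this
    · exact Commute.mul_left ((Commute.refl x).zpow_left _) hgx.inv_left
    · exact Commute.mul_left (hxX.zpow_left _) hgX.inv_left
  have hpos : ∀ k : ℕ, SC a (x ^ (k : ℤ) * g) ∧ SC a (x ^ ((k : ℤ) + 1) * g) := by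
    intro k
    induction k with
    | zero => refine ⟨by simpa using h2, by simpa using h3⟩
    | succ k ih =>
      refine ⟨by have := ih.2; push_cast; exact this, ?_⟩
      have := hup k ih.1 ih.2
      push_cast
      convert this using 3
      ring
  have hneg : ∀ k : ℕ, SC a (x ^ (-(k : ℤ)) * g) ∧ SC a (x ^ (-(k : ℤ) + 1) * g) := by
    intro k
    induction k with
    | zero => refine ⟨by simpa using h2, by simpa using h3⟩
    | succ k ih =>
      have := hdown _ ih.1 ih.2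
      refine ⟨?_, ?_⟩
      · push_cast
        convert this using 3
        ring
      · push_cast
        convert ih.1 using 3
        ring
  rcases Int.eq_nat_or_neg n with ⟨k, rfl | rfl⟩
  · exact (hpos k).1
  · exact (hneg k).1

end Step

section Main

variable {G : Type*} [Group G]

/-- conjugates of `u` by powers of `θ` -/
def ee (u θ : G) (i : ℤ) : G := θ ^ i * u * θ ^ (-i)

/-- the relations between `a, u, θ` -/
structure BaseRel (a u θ : G) : Prop where
  th9 : θ ^ 9 = 1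
  tha : Commute θ a
  uc1 : Commute u (ee u θ 1)
  uc2 : Commute u (ee u θ 2)
  uc3 : Commute u (ee u θ 3)
  uc4 : Commute u (ee u θ 4)
  e3 : ee u θ 3 * a * (ee u θ 3)⁻¹ = u * a * u⁻¹ * a
  b100 : SC a (ee u θ 0)
  b010 : SC a (ee u θ 1)
  b001 : SC a (ee u θ 2)
  b110 : SC a (ee u θ 0 * ee u θ 1)
  b101 : SC a (ee u θ 0 * ee u θ 2)
  b011 : SC a (ee u θ 1 * ee u θ 2)
  b111 : SC a (ee u θ 0 * ee u θ 1 * ee u θ 2)

theorem ee_zero (u θ : G) : ee u θ 0 = u := by simp [ee]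

theorem ee_conj (u θ : G) (i j : ℤ) : θ ^ i * ee u θ j * θ ^ (-i) = ee u θ (i + j) := by
  unfold ee
  rw [zpow_add, neg_add, zpow_add]
  have : (θ ^ (-i) : G) * θ ^ (-j) = θ ^ (-j) * θ ^ (-i) := (Commute.refl θ).zpow_zpow _ _
  rw [this]
  group

variable {a u θ : G}

theorem ee_period (h : BaseRel a u θ) (i : ℤ) : ee u θ (i + 9) = ee u θ i := by
  unfold ee
  have h9 : θ ^ (9 : ℤ) = 1 := by exact_mod_cast h.th9
  rw [neg_add, zpow_add, zpow_add, h9, zpow_neg θ 9, h9]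
  simp

theorem ee_comm_shift (d : ℤ) (hd : Commute u (ee u θ d)) (i : ℤ) :
    Commute (ee u θ i) (ee u θ (i + d)) := by
  have h1 := Commute.conj_iff (a := u) (b := ee u θ d) (θ ^ i) |>.mpr hd
  have e1 : θ ^ i * u * (θ ^ i)⁻¹ = ee u θ i := by rw [← zpow_neg]; rfl
  have e2 : θ ^ i * ee u θ d * (θ ^ i)⁻¹ = ee u θ (i + d) := by
    rw [← zpow_neg]; exact ee_conj u θ i d
  rwa [e1, e2] at h1

theorem ee_comm (h : BaseRel a u θ) (i j : ℤ) : Commute (ee u θ i) (ee u θ j) := by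
  have hmod : ∀ (i : ℤ) (k : ℤ), ee u θ (i + 9 * k) = ee u θ i := by
    intro i k
    induction k using Int.induction_on with
    | zero => simp
    | succ k ih =>
      rw [← ih, ← ee_period h (i + 9 * k)]; congr 1; ring
    | pred k ih =>
      rw [← ih, ← ee_period h (i + 9 * (-k - 1))]; congr 1; ring
  have key : ∀ d : ℤ, 0 ≤ d → d < 9 → ∀ i, Commute (ee u θ i) (ee u θ (i + d)) := by
    intro d h0 h9 i
    have hsym : ∀ d' : ℤ, Commute u (ee u θ d') → d = 9 - d' →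
        Commute (ee u θ i) (ee u θ (i + d)) := by
      intro d' hd' hdd
      have h1 := ee_comm_shift d' hd' (i + d)
      have e1 : ee u θ (i + d + d') = ee u θ i := by
        rw [show i + d + d' = i + 9 by omega, ee_period h]
      rw [e1] at h1
      exact h1.symm
    interval_cases d
    · rw [add_zero]
    · exact ee_comm_shift _ h.uc1 i
    · exact ee_comm_shift _ h.uc2 i
    · exact ee_comm_shift _ h.uc3 i
    · exact ee_comm_shift _ h.uc4 i
    · exact hsym 4 h.uc4 (by norm_num)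
    · exact hsym 3 h.uc3 (by norm_num)
    · exact hsym 2 h.uc2 (by norm_num)
    · exact hsym 1 h.uc1 (by norm_num)
  have h1 := key ((j - i) % 9) (Int.emod_nonneg _ (by norm_num))
    (Int.emod_lt_of_pos _ (by norm_num)) i
  have h2 : ee u θ (i + (j - i) % 9) = ee u θ j := by
    rw [← hmod (i + (j - i) % 9) ((j - i) / 9)]
    congr 1
    have := Int.emod_add_mul_ediv (j - i) 9
    omega
  rwa [h2] at h1

theorem ee_act (h : BaseRel a u θ) (i : ℤ) :
    ee u θ (i + 3) * a * (ee u θ (i + 3))⁻¹ = ee u θ i * a * (ee u θ i)⁻¹ * a := by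
  have h1 : ∀ j, ee u θ (i + j) * a * (ee u θ (i + j))⁻¹ =
      θ ^ i * (ee u θ j * a * (ee u θ j)⁻¹) * θ ^ (-i) := by
    intro j
    rw [← ee_conj u θ i j]
    have : θ ^ (-i) * a = a * θ ^ (-i) := (h.tha.zpow_left _).eq
    have h2 : θ ^ i * ee u θ j * θ ^ (-i) * a * (θ ^ i * ee u θ j * θ ^ (-i))⁻¹ =
        θ ^ i * ee u θ j * (θ ^ (-i) * a) * (θ ^ i * ee u θ j * θ ^ (-i))⁻¹ := by group
    rw [h2, this]
    group
  have h2 := h1 0
  rw [add_zero, ee_zero] at h2
  rw [h1 3, h.e3, h2]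
  have : θ ^ i * a = a * θ ^ i := (h.tha.zpow_left _).eq
  calc θ ^ i * (u * a * u⁻¹ * a) * θ ^ (-i)
      = θ ^ i * (u * a * u⁻¹) * θ ^ (-i) * (θ ^ i * a * θ ^ (-i)) := by group
    _ = θ ^ i * (u * a * u⁻¹) * θ ^ (-i) * a := by rw [this]; group

/-- The commutative subgroup generated by the `ee u θ i`. -/
def TT (u θ : G) : Subgroup G := Subgroup.closure (Set.range (ee u θ))

theorem TT_comm (h : BaseRel a u θ) : ∀ x ∈ TT u θ, ∀ y ∈ TT u θ, Commute x y := by
  intro x hx y hy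
  unfold TT at hx hy
  induction hx using Subgroup.closure_induction with
  | mem x hx =>
    obtain ⟨i, rfl⟩ := hx
    induction hy using Subgroup.closure_induction with
    | mem y hy => obtain ⟨j, rfl⟩ := hy; exact ee_comm h i j
    | one => exact Commute.one_right _
    | mul y z _ _ hy hz => exact hy.mul_right hz
    | inv y _ hy => exact hy.inv_right
  | one => exact Commute.one_left _
  | mul x z _ _ hx hz => exact hx.mul_left hz
  | inv x _ hx => exact hx.inv_left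

/-- monomials in the first three -/
def cc (u θ : G) (i j k : ℤ) : G := ee u θ 2 ^ k * (ee u θ 1 ^ j * (ee u θ 0 ^ i))

theorem cc_SC (h : BaseRel a u θ) (i j k : ℤ) : SC a (cc u θ i j k) := by
  have c := fun i j => ee_comm h i j
  have e3 : ∀ i, ee u θ (i + 3) * a * (ee u θ (i + 3))⁻¹ = ee u θ i * a * (ee u θ i)⁻¹ * a :=
    ee_act h
  -- first line
  have s1 : ∀ (g : G), Commute g (ee u θ 0) → Commute g (ee u θ (0 + 3)) → SC a g →
      SC a (ee u θ 0 * g) → ∀ n : ℤ, SC a (ee u θ 0 ^ n * g) := by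
    intro g hg1 hg2 hg3 hg4 n
    exact SC_line hg1 hg2 (c _ _) (e3 0) h.b100 hg3 hg4 n
  have s2 : ∀ (g : G), Commute g (ee u θ 1) → Commute g (ee u θ (1 + 3)) → SC a g →
      SC a (ee u θ 1 * g) → ∀ n : ℤ, SC a (ee u θ 1 ^ n * g) := by
    intro g hg1 hg2 hg3 hg4 n
    exact SC_line hg1 hg2 (c _ _) (e3 1) h.b010 hg3 hg4 n
  have s3 : ∀ (g : G), Commute g (ee u θ 2) → Commute g (ee u θ (2 + 3)) → SC a g →
      SC a (ee u θ 2 * g) → ∀ n : ℤ, SC a (ee u θ 2 ^ n * g) := by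
    intro g hg1 hg2 hg3 hg4 n
    exact SC_line hg1 hg2 (c _ _) (e3 2) h.b001 hg3 hg4 n
  have l00 : ∀ n : ℤ, SC a (ee u θ 0 ^ n) := by
    intro n
    have := s1 1 (Commute.one_left _) (Commute.one_left _) (SC_one a) (by simpa using h.b100) n
    simpa using this
  have l10 : ∀ n : ℤ, SC a (ee u θ 1 * ee u θ 0 ^ n) := by
    intro n
    have := s1 (ee u θ 1) (c _ _) (c _ _) h.b010 h.b110 n
    rwa [((c 0 1).zpow_left n).eq] at this
  have l01 : ∀ n : ℤ, SC a (ee u θ 2 * ee u θ 0 ^ n) := by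
    intro n
    have := s1 (ee u θ 2) (c _ _) (c _ _) h.b001 h.b101 n
    rwa [((c 0 2).zpow_left n).eq] at this
  have l11 : ∀ n : ℤ, SC a (ee u θ 2 * (ee u θ 1 * ee u θ 0 ^ n)) := by
    intro n
    have := s1 (ee u θ 1 * ee u θ 2) ((c _ _).mul_left (c _ _)) ((c _ _).mul_left (c _ _))
      h.b011 (by rw [← mul_assoc]; exact h.b111) n
    have e : ee u θ 0 ^ n * (ee u θ 1 * ee u θ 2) = ee u θ 2 * (ee u θ 1 * ee u θ 0 ^ n) := by
      rw [(c 1 2).eq, ← mul_assoc, ((c 0 2).zpow_left n).eq, mul_assoc, ((c 0 1).zpow_left n).eq]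
    rwa [e] at this
  have m0 : ∀ n m : ℤ, SC a (ee u θ 1 ^ m * ee u θ 0 ^ n) := by
    intro n m
    exact s2 (ee u θ 0 ^ n) ((c _ _).zpow_left _) ((c _ _).zpow_left _) (l00 n) (l10 n) m
  have m1 : ∀ n m : ℤ, SC a (ee u θ 2 * (ee u θ 1 ^ m * ee u θ 0 ^ n)) := by
    intro n m
    have e : ∀ z : G, Commute (ee u θ 2) z → ee u θ 2 * (z * ee u θ 0 ^ n) =
        z * (ee u θ 2 * ee u θ 0 ^ n) := by
      intro z hz
      rw [← mul_assoc, hz.eq, mul_assoc]
    have := s2 (ee u θ 2 * ee u θ 0 ^ n) ((c _ _).mul_left ((c _ _).zpow_left _))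
      ((c _ _).mul_left ((c _ _).zpow_left _)) (l01 n)
      (by rw [← e _ (c 2 1)]; exact l11 n) m
    rwa [← e _ ((c 2 1).zpow_right m)] at this
  exact s3 (ee u θ 1 ^ j * ee u θ 0 ^ i) (((c _ _).zpow_left _).mul_left ((c _ _).zpow_left _))
    (((c _ _).zpow_left _).mul_left ((c _ _).zpow_left _)) (m0 i j) (m1 i j) k

theorem cc_mem (i j k : ℤ) : cc u θ i j k ∈ TT u θ := by
  unfold cc TT
  have : ∀ i, ee u θ i ∈ Subgroup.closure (Set.range (ee u θ)) :=
    fun i => Subgroup.subset_closure ⟨i, rfl⟩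
  exact mul_mem (zpow_mem (this _) _) (mul_mem (zpow_mem (this _) _) (zpow_mem (this _) _))

theorem cc_inv_mul (h : BaseRel a u θ) (i j k i' j' k' : ℤ) :
    (cc u θ i j k)⁻¹ * cc u θ i' j' k' = cc u θ (i' - i) (j' - j) (k' - k) := by
  have c := fun i j => ee_comm h i j
  unfold cc
  set x := ee u θ 2
  set y := ee u θ 1
  set z := ee u θ 0
  have hxy : ∀ m n : ℤ, Commute (x ^ m) (y ^ n) := fun m n => ((c 2 1).zpow_left m).zpow_right n
  have hxz : ∀ m n : ℤ, Commute (x ^ m) (z ^ n) := fun m n => ((c 2 0).zpow_left m).zpow_right n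
  have hyz : ∀ m n : ℤ, Commute (y ^ m) (z ^ n) := fun m n => ((c 1 0).zpow_left m).zpow_right n
  have e1 : (x ^ k * (y ^ j * z ^ i))⁻¹ = z ^ (-i) * (y ^ (-j) * x ^ (-k)) := by
    simp only [zpow_neg]; group
  rw [e1]
  calc z ^ (-i) * (y ^ (-j) * x ^ (-k)) * (x ^ k' * (y ^ j' * z ^ i'))
      = z ^ (-i) * (y ^ (-j) * x ^ (k' - k)) * (y ^ j' * z ^ i') := by
        rw [sub_eq_neg_add, zpow_add]; group
    _ = z ^ (-i) * (x ^ (k' - k) * y ^ (-j)) * (y ^ j' * z ^ i') := by rw [(hxy _ _).eq]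
    _ = (z ^ (-i) * x ^ (k' - k)) * (y ^ (j' - j) * z ^ i') := by
        rw [sub_eq_neg_add j', zpow_add]; group
    _ = (x ^ (k' - k) * z ^ (-i)) * (y ^ (j' - j) * z ^ i') := by rw [(hxz _ _).eq]
    _ = x ^ (k' - k) * ((z ^ (-i) * y ^ (j' - j)) * z ^ i') := by group
    _ = x ^ (k' - k) * ((y ^ (j' - j) * z ^ (-i)) * z ^ i') := by rw [(hyz _ _).eq]
    _ = x ^ (k' - k) * (y ^ (j' - j) * z ^ (i' - i)) := by
        rw [sub_eq_neg_add i', zpow_add]; group

/-- generated by the conjugates of `a` under monomials in the first three -/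
def AA (a u θ : G) : Subgroup G :=
  Subgroup.closure {g | ∃ i j k : ℤ, g = cc u θ i j k * a * (cc u θ i j k)⁻¹}

theorem closure_comm {s : Set G} (hs : ∀ x ∈ s, ∀ y ∈ s, Commute x y) :
    ∀ x ∈ Subgroup.closure s, ∀ y ∈ Subgroup.closure s, Commute x y := by
  intro x hx y hy
  induction hx using Subgroup.closure_induction with
  | mem x hx =>
    induction hy using Subgroup.closure_induction with
    | mem y hy => exact hs x hx y hy
    | one => exact Commute.one_right _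
    | mul y z _ _ hy hz => exact hy.mul_right hz
    | inv y _ hy => exact hy.inv_right
  | one => exact Commute.one_left _
  | mul x z _ _ hx hz => exact hx.mul_left hz
  | inv x _ hx => exact hx.inv_left

theorem AA_comm (h : BaseRel a u θ) : ∀ x ∈ AA a u θ, ∀ y ∈ AA a u θ, Commute x y := by
  apply closure_comm
  rintro _ ⟨i, j, k, rfl⟩ _ ⟨i', j', k', rfl⟩
  apply SC_comm_conj
  rw [cc_inv_mul h]
  exact cc_SC h _ _ _

theorem a_mem_AA : a ∈ AA a u θ := by
  apply Subgroup.subset_closure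
  exact ⟨0, 0, 0, by simp [cc]⟩

/-- conjugation by `g` preserves `AA` -/
def Good (a u θ g : G) : Prop := g ∈ TT u θ ∧ ∀ x ∈ AA a u θ, g * x * g⁻¹ ∈ AA a u θ

theorem Good.mul {g k : G} (hg : Good a u θ g) (hk : Good a u θ k) : Good a u θ (g * k) := by
  refine ⟨mul_mem hg.1 hk.1, fun x hx => ?_⟩
  have := hg.2 _ (hk.2 x hx)
  have e : g * (k * x * k⁻¹) * g⁻¹ = g * k * x * (g * k)⁻¹ := by group
  rwa [e] at this

theorem conj_closure {s : Set G} {K : Subgroup G} {g : G}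
    (hs : ∀ x ∈ s, g * x * g⁻¹ ∈ K) : ∀ x ∈ Subgroup.closure s, g * x * g⁻¹ ∈ K := by
  intro x hx
  have h1 : Subgroup.closure s ≤ K.comap (MulAut.conj g).toMonoidHom := by
    rw [Subgroup.closure_le]
    intro y hy
    exact hs y hy
  exact h1 hx

theorem cc_good (h : BaseRel a u θ) (i j k : ℤ) : Good a u θ (cc u θ i j k) := by
  refine ⟨cc_mem i j k, conj_closure ?_⟩
  rintro _ ⟨i', j', k', rfl⟩
  apply Subgroup.subset_closure
  refine ⟨i' + i, j' + j, k' + k, ?_⟩
  have h1 := cc_inv_mul h (-i) (-j) (-k) i' j' k'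
  have h2 := cc_inv_mul h i j k 0 0 0
  have h3 : cc u θ 0 0 0 = 1 := by simp [cc]
  rw [h3, mul_one, zero_sub, zero_sub, zero_sub] at h2
  rw [← h2, inv_inv, sub_neg_eq_add, sub_neg_eq_add, sub_neg_eq_add] at h1
  rw [← h1]; group

theorem ee_good_nat (h : BaseRel a u θ) (n : ℕ) : Good a u θ (ee u θ n) := by
  induction n using Nat.strong_induction_on with
  | _ n ih =>
    by_cases hn : n < 3
    · have : ee u θ n = cc u θ (if n = 0 then 1 else 0) (if n = 1 then 1 else 0)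
          (if n = 2 then 1 else 0) := by
        interval_cases n <;> simp [cc]
      rw [this]
      exact cc_good h _ _ _
    · obtain ⟨m, rfl⟩ : ∃ m, n = m + 3 := ⟨n - 3, by omega⟩
      have h1 := ih m (by omega)
      refine ⟨Subgroup.subset_closure ⟨_, rfl⟩, conj_closure ?_⟩
      rintro _ ⟨i, j, k, rfl⟩
      have hc : Commute (ee u θ ((m + 3 : ℕ) : ℤ)) (cc u θ i j k) :=
        TT_comm h _ (Subgroup.subset_closure ⟨_, rfl⟩) _ (cc_mem i j k)
      have e1 : ee u θ ((m + 3 : ℕ) : ℤ) * (cc u θ i j k * a * (cc u θ i j k)⁻¹) *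
          (ee u θ ((m + 3 : ℕ) : ℤ))⁻¹ = cc u θ i j k *
            (ee u θ ((m + 3 : ℕ) : ℤ) * a * (ee u θ ((m + 3 : ℕ) : ℤ))⁻¹) *
            (cc u θ i j k)⁻¹ := by
        calc _ = (ee u θ ((m + 3 : ℕ) : ℤ) * cc u θ i j k) * a *
              (ee u θ ((m + 3 : ℕ) : ℤ) * cc u θ i j k)⁻¹ := by group
          _ = _ := by rw [hc.eq]; group
      rw [e1]
      apply (cc_good h i j k).2
      push_cast
      rw [ee_act h]
      exact mul_mem (h1.2 a a_mem_AA) a_mem_AA

theorem ee_mod (h : BaseRel a u θ) (i : ℤ) (k : ℤ) : ee u θ (i + 9 * k) = ee u θ i := by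
  induction k using Int.induction_on with
  | zero => simp
  | succ k ih =>
    rw [← ih, ← ee_period h (i + 9 * k)]; congr 1; ring
  | pred k ih =>
    rw [← ih, ← ee_period h (i + 9 * (-k - 1))]; congr 1; ring

theorem ee_good (h : BaseRel a u θ) (i : ℤ) : Good a u θ (ee u θ i) := by
  have h1 := ee_mod h i (i.natAbs)
  rw [← h1]
  obtain ⟨n, hn⟩ : ∃ n : ℕ, i + 9 * (i.natAbs : ℤ) = n := ⟨(i + 9 * (i.natAbs : ℤ)).toNat, by omega⟩
  rw [hn]
  exact ee_good_nat h n

theorem TT_good (h : BaseRel a u θ) (g : G) (hg : g ∈ TT u θ) :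
    ∃ k, Good a u θ k ∧ Good a u θ (k * g) := by
  have hone : Good a u θ 1 := ⟨one_mem _, fun x hx => by simpa using hx⟩
  have hg' := hg
  unfold TT at hg'
  induction hg' using Subgroup.closure_induction with
  | mem x hx => obtain ⟨i, rfl⟩ := hx; exact ⟨1, hone, by rw [one_mul]; exact ee_good h i⟩
  | one => exact ⟨1, hone, by rw [one_mul]; exact hone⟩
  | mul x y hx hy ihx ihy =>
    obtain ⟨k, hk1, hk2⟩ := ihx hx
    obtain ⟨l, hl1, hl2⟩ := ihy hy
    refine ⟨k * l, hk1.mul hl1, ?_⟩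
    have e : k * l * (x * y) = (k * x) * (l * y) := by
      have := (TT_comm h l hl1.1 x hx).eq
      calc k * l * (x * y) = k * (l * x) * y := by group
        _ = k * (x * l) * y := by rw [this]
        _ = _ := by group
    rw [e]
    exact hk2.mul hl2
  | inv x hx ih =>
    obtain ⟨k, hk1, hk2⟩ := ih hx
    refine ⟨k * x, hk2, ?_⟩
    rw [mul_assoc, mul_inv_cancel, mul_one]
    exact hk1

theorem TT_SC (h : BaseRel a u θ) (g : G) (hg : g ∈ TT u θ) : SC a g := by
  obtain ⟨k, hk1, hk2⟩ := TT_good h g hg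
  have h1 := AA_comm h _ (hk1.2 a a_mem_AA) _ (hk2.2 a a_mem_AA)
  have h2 := Commute.conj_iff (a := k * a * k⁻¹) (b := k * g * a * (k * g)⁻¹) k⁻¹ |>.mpr h1
  unfold SC
  have e1 : k⁻¹ * (k * a * k⁻¹) * k⁻¹⁻¹ = a := by group
  have e2 : k⁻¹ * (k * g * a * (k * g)⁻¹) * k⁻¹⁻¹ = g * a * g⁻¹ := by group
  rwa [e1, e2] at h2

/-- generated by the conjugates of `a` under `TT` -/
def BB (a u θ : G) : Subgroup G :=
  Subgroup.closure {g | ∃ t ∈ TT u θ, g = t * a * t⁻¹}

theorem BB_comm (h : BaseRel a u θ) : ∀ x ∈ BB a u θ, ∀ y ∈ BB a u θ, Commute x y := by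
  apply closure_comm
  rintro _ ⟨t, ht, rfl⟩ _ ⟨t', ht', rfl⟩
  exact SC_comm_conj (TT_SC h _ (mul_mem (inv_mem ht) ht'))

theorem TT_theta (i : ℤ) : ∀ x ∈ TT u θ, θ ^ i * x * (θ ^ i)⁻¹ ∈ TT u θ := by
  apply conj_closure
  rintro _ ⟨j, rfl⟩
  rw [← zpow_neg, ee_conj]
  exact Subgroup.subset_closure ⟨_, rfl⟩

theorem BB_normal (h : BaseRel a u θ) {ε : G} (hea : ε * a * ε⁻¹ = a⁻¹) (heu : Commute ε u)
    (het : Commute ε θ) (hgen : Subgroup.closure {a, u, θ, ε} = ⊤) : (BB a u θ).Normal := by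
  have hee : ∀ t ∈ TT u θ, Commute ε t := by
    intro t ht
    unfold TT at ht
    induction ht using Subgroup.closure_induction with
    | mem x hx =>
      obtain ⟨i, rfl⟩ := hx
      exact ((het.zpow_right i).mul_right heu).mul_right (het.zpow_right _)
    | one => exact Commute.one_right _
    | mul x y _ _ hx hy => exact hx.mul_right hy
    | inv x _ hx => exact hx.inv_right
  have hu : u ∈ TT u θ := by
    have : ee u θ 0 ∈ TT u θ := Subgroup.subset_closure ⟨0, rfl⟩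
    rwa [ee_zero] at this
  have ha : a ∈ BB a u θ := Subgroup.subset_closure ⟨1, one_mem _, by simp⟩
  have hea' : ε⁻¹ * a * ε = a⁻¹ := by
    have h1 : ε * (ε⁻¹ * a * ε) * ε⁻¹ = a := by group
    have h2 : ε * a⁻¹ * ε⁻¹ = a := by
      have : (ε * a * ε⁻¹)⁻¹ = ε * a⁻¹ * ε⁻¹ := by group
      rw [← this, hea, inv_inv]
    have h3 := h1.trans h2.symm
    exact mul_left_cancel (mul_right_cancel h3)
  have key : ∀ g ∈ ({a, u, θ, ε} : Set G), (∀ x ∈ BB a u θ, g * x * g⁻¹ ∈ BB a u θ) ∧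
      (∀ x ∈ BB a u θ, g⁻¹ * x * g⁻¹⁻¹ ∈ BB a u θ) := by
    intro g hg
    simp only [Set.mem_insert_iff, Set.mem_singleton_iff] at hg
    rcases hg with rfl | rfl | rfl | rfl
    · exact ⟨fun x hx => mul_mem (mul_mem ha hx) (inv_mem ha),
        fun x hx => mul_mem (mul_mem (inv_mem ha) hx) (inv_mem (inv_mem ha))⟩
    · constructor <;> apply conj_closure <;> rintro _ ⟨t, ht, rfl⟩ <;>
        apply Subgroup.subset_closure
      · exact ⟨g * t, mul_mem hu ht, by group⟩
      · exact ⟨g⁻¹ * t, mul_mem (inv_mem hu) ht, by group⟩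
    · have hg1 : g⁻¹ * a = a * g⁻¹ := (h.tha.inv_left).eq
      have hg2 : g * a = a * g := h.tha.eq
      constructor <;> apply conj_closure <;> rintro _ ⟨t, ht, rfl⟩ <;>
        apply Subgroup.subset_closure
      · refine ⟨g * t * g⁻¹, by simpa using TT_theta (u := u) (θ := g) 1 t ht, ?_⟩
        calc g * (t * a * t⁻¹) * g⁻¹ = g * t * g⁻¹ * (g * a) * g⁻¹ * (g * t * g⁻¹)⁻¹ := by group
          _ = _ := by rw [hg2]; group
      · refine ⟨g⁻¹ * t * g, by simpa using TT_theta (u := u) (θ := g) (-1) t ht, ?_⟩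
        calc g⁻¹ * (t * a * t⁻¹) * g⁻¹⁻¹
            = g⁻¹ * t * g * (g⁻¹ * a) * g * (g⁻¹ * t * g)⁻¹ := by group
          _ = _ := by rw [hg1]; group
    · constructor <;> apply conj_closure <;> rintro _ ⟨t, ht, rfl⟩
      · have h1 : g * (t * a * t⁻¹) * g⁻¹ = (t * a * t⁻¹)⁻¹ := by
          calc g * (t * a * t⁻¹) * g⁻¹ = (g * t) * a * (g * t)⁻¹ := by group
            _ = t * (g * a * g⁻¹) * t⁻¹ := by rw [(hee t ht).eq]; group
            _ = _ := by rw [hea]; group
        rw [h1]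
        exact inv_mem (Subgroup.subset_closure ⟨t, ht, rfl⟩)
      · have h1 : g⁻¹ * (t * a * t⁻¹) * g⁻¹⁻¹ = (t * a * t⁻¹)⁻¹ := by
          calc g⁻¹ * (t * a * t⁻¹) * g⁻¹⁻¹ = (g⁻¹ * t) * a * (g⁻¹ * t)⁻¹ := by group
            _ = t * (g⁻¹ * a * g) * t⁻¹ := by rw [((hee t ht).inv_left).eq]; group
            _ = _ := by rw [hea']; group
        rw [h1]
        exact inv_mem (Subgroup.subset_closure ⟨t, ht, rfl⟩)
  constructor
  intro n hn g
  have hg : g ∈ Subgroup.closure ({a, u, θ, ε} : Set G) := by rw [hgen]; trivial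
  have h2 : (∀ x ∈ BB a u θ, g * x * g⁻¹ ∈ BB a u θ) ∧
      (∀ x ∈ BB a u θ, g⁻¹ * x * g⁻¹⁻¹ ∈ BB a u θ) := by
    induction hg using Subgroup.closure_induction with
    | mem x hx => exact key x hx
    | one => exact ⟨fun x hx => by simpa using hx, fun x hx => by simpa using hx⟩
    | mul x y _ _ hx hy =>
      refine ⟨fun z hz => ?_, fun z hz => ?_⟩
      · have := hx.1 _ (hy.1 z hz)
        have e : x * (y * z * y⁻¹) * x⁻¹ = x * y * z * (x * y)⁻¹ := by group
        rwa [e] at this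
      · have := hy.2 _ (hx.2 z hz)
        have e : y⁻¹ * (x⁻¹ * z * x⁻¹⁻¹) * y⁻¹⁻¹ = (x * y)⁻¹ * z * (x * y)⁻¹⁻¹ := by group
        rwa [e] at this
    | inv x _ hx => exact ⟨hx.2, by rw [inv_inv]; exact hx.1⟩
  exact h2.1 n hn

/-- The normal closure of `a` is commutative. -/
theorem normalClosure_comm (h : BaseRel a u θ) {ε : G} (hea : ε * a * ε⁻¹ = a⁻¹)
    (heu : Commute ε u) (het : Commute ε θ) (hgen : Subgroup.closure {a, u, θ, ε} = ⊤) :
    ∀ x ∈ Subgroup.normalClosure {a}, ∀ y ∈ Subgroup.normalClosure {a}, Commute x y := by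
  have h1 := BB_normal h hea heu het hgen
  have h2 : Subgroup.normalClosure {a} ≤ BB a u θ := by
    apply Subgroup.normalClosure_le_normal
    rw [Set.singleton_subset_iff]
    exact Subgroup.subset_closure ⟨1, one_mem _, by simp⟩
  exact fun x hx y hy => BB_comm h x (h2 hx) y (h2 hy)

end Main

end Pool.Agent.Helper688.LPres
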