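import Mathlib

set_option autoImplicit false

namespace Pool.Agent.Helper688.LPres

open MvPowerSeries

/-- power series in two variables over the field with three elements -/
abbrev Lam := MvPowerSeries (Fin 2) (ZMod 3)

/-- the involution changing the sign of the variables -/
noncomputable def star : Lam →+* Lam := rescale (fun _ => (-1 : ZMod 3))

theorem star_star (f : Lam) : star (star f) = f := by
  unfold star
  rw [rescale_rescale]
  have : ((fun _ => -1 : Fin 2 → ZMod 3) * fun _ => -1) = 1 := by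
    ext i; simp
  rw [this, rescale_one]
  rfl

theorem star_ne_zero {f : Lam} (hf : f ≠ 0) : star f ≠ 0 := by
  intro h
  apply hf
  rw [← star_star f, h, map_zero]

theorem star_X (i : Fin 2) : star (X i) = - X i := by
  unfold star
  ext n
  rw [coeff_rescale, map_neg, coeff_X]
  split_ifs with h
  · rw [h, Finsupp.prod_single_index] <;> simp
  · simp

theorem constantCoeff_star (f : Lam) : constantCoeff (star f) = constantCoeff f := by
  rw [← coeff_zero_eq_constantCoeff_apply, ← coeff_zero_eq_constantCoeff_apply]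
  unfold star
  rw [coeff_rescale]
  simp

theorem pU_isUnit (i : Fin 2) : IsUnit (1 + X i : Lam) := by
  rw [isUnit_iff_constantCoeff]; simp

theorem qU_isUnit (i : Fin 2) : IsUnit (1 - X i : Lam) := by
  rw [isUnit_iff_constantCoeff]; simp

/-- `1 + s` -/
noncomputable def pU (i : Fin 2) : Lamˣ := (pU_isUnit i).unit

/-- `1 - s` -/
noncomputable def qU (i : Fin 2) : Lamˣ := (qU_isUnit i).unit

theorem pU_val (i : Fin 2) : (pU i : Lam) = 1 + X i := rfl
theorem qU_val (i : Fin 2) : (qU i : Lam) = 1 - X i := rfl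

/-- `z = (1 + s) / (1 - s)` -/
noncomputable def zU (i : Fin 2) : Lamˣ := pU i * (qU i)⁻¹

theorem star_pU (i : Fin 2) : Units.map (star : Lam →* Lam) (pU i) = qU i := by
  ext1
  change star (pU i : Lam) = _
  rw [pU_val, qU_val, map_add, map_one, star_X, sub_eq_add_neg]

theorem star_qU (i : Fin 2) : Units.map (star : Lam →* Lam) (qU i) = pU i := by
  ext1
  change star (qU i : Lam) = _
  rw [pU_val, qU_val, map_sub, map_one, star_X, sub_neg_eq_add]

theorem star_zU (i : Fin 2) : Units.map (star : Lam →* Lam) (zU i) = (zU i)⁻¹ := by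
  unfold zU
  rw [map_mul, map_inv, star_pU, star_qU, mul_inv_rev, inv_inv]

theorem star_z (i : Fin 2) : star (zU i : Lam) = ((zU i)⁻¹ : Lamˣ) :=
  congrArg Units.val (star_zU i)

theorem star_zinv (i : Fin 2) : star (((zU i)⁻¹ : Lamˣ) : Lam) = (zU i : Lam) := by
  rw [← star_z, star_star]

theorem constantCoeff_pU (i : Fin 2) : constantCoeff (pU i : Lam) = 1 := by
  rw [pU_val]; simp

theorem constantCoeff_qU (i : Fin 2) : constantCoeff (qU i : Lam) = 1 := by
  rw [qU_val]; simp

theorem constantCoeff_inv_unit (u : Lamˣ) (h : constantCoeff (u : Lam) = 1) :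
    constantCoeff ((u⁻¹ : Lamˣ) : Lam) = 1 := by
  have h1 : (u : Lam) * ((u⁻¹ : Lamˣ) : Lam) = 1 := u.mul_inv
  have h2 := congrArg constantCoeff h1
  rw [map_mul, h, one_mul, map_one] at h2
  exact h2

theorem constantCoeff_z (i : Fin 2) : constantCoeff (zU i : Lam) = 1 := by
  unfold zU
  rw [Units.val_mul, map_mul, constantCoeff_pU,
    constantCoeff_inv_unit _ (constantCoeff_qU i), mul_one]

/-- `w = z + 1/z + 1` -/
noncomputable def ww (i : Fin 2) : Lam := zU i + ((zU i)⁻¹ : Lamˣ) + 1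

theorem star_ww (i : Fin 2) : star (ww i) = ww i := by
  unfold ww
  rw [map_add, map_add, map_one, star_z, star_zinv, add_comm (((zU i)⁻¹ : Lamˣ) : Lam)]

theorem three_eq_zero : (3 : Lam) = 0 := by
  have : (3 : Lam) = algebraMap (ZMod 3) Lam 3 := (map_ofNat _ 3).symm
  rw [this, show (3 : ZMod 3) = 0 by decide, map_zero]

/-- the unit part of `w` -/
noncomputable def wu (i : Fin 2) : Lamˣ := (pU i * qU i)⁻¹

theorem ww_eq (i : Fin 2) : ww i = X i ^ 2 * (wu i : Lam) := by
  have h1 : ww i * ((pU i * qU i : Lamˣ) : Lam) = X i ^ 2 := by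
    have e1 : (zU i : Lam) * ((pU i * qU i : Lamˣ) : Lam) = (pU i : Lam) ^ 2 := by
      rw [← Units.val_mul, ← Units.val_pow_eq_pow_val]
      congr 1
      unfold zU
      rw [pow_two]
      rw [mul_comm (pU i) (qU i), mul_assoc, inv_mul_cancel_left]
    have e2 : (((zU i)⁻¹ : Lamˣ) : Lam) * ((pU i * qU i : Lamˣ) : Lam) = (qU i : Lam) ^ 2 := by
      rw [← Units.val_mul, ← Units.val_pow_eq_pow_val]
      congr 1
      unfold zU
      rw [pow_two, mul_inv_rev, inv_inv]
      calc qU i * (pU i)⁻¹ * (pU i * qU i) = qU i * ((pU i)⁻¹ * pU i) * qU i := by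
            simp only [mul_assoc]
        _ = qU i * qU i := by rw [inv_mul_cancel, mul_one]
    unfold ww
    rw [add_mul, add_mul, e1, e2, one_mul, Units.val_mul, pU_val, qU_val]
    linear_combination (1 + (0 : Lam)) * three_eq_zero
  unfold wu
  rw [← h1, mul_assoc, Units.mul_inv, mul_one]

theorem constantCoeff_wu (i : Fin 2) : constantCoeff (wu i : Lam) = 1 := by
  unfold wu
  apply constantCoeff_inv_unit
  rw [Units.val_mul, map_mul, constantCoeff_pU, constantCoeff_qU, mul_one]

/-- the exponent `(2i, 2j)` -/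
noncomputable def ex (i j : ℕ) : Fin 2 →₀ ℕ := Finsupp.single 0 (2 * i) + Finsupp.single 1 (2 * j)

theorem ex_zero (i j : ℕ) : ex i j 0 = 2 * i := by simp [ex]
theorem ex_one (i j : ℕ) : ex i j 1 = 2 * j := by simp [ex]

theorem ex_degree (i j : ℕ) : (ex i j).degree = 2 * i + 2 * j := by
  unfold ex
  rw [map_add, Finsupp.degree_single, Finsupp.degree_single]

theorem ex_le {i j i' j' : ℕ} : ex i j ≤ ex i' j' ↔ i ≤ i' ∧ j ≤ j' := by
  rw [Finsupp.le_def]
  constructor
  · intro h
    have h0 := h 0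
    have h1 := h 1
    rw [ex_zero, ex_zero] at h0
    rw [ex_one, ex_one] at h1
    omega
  · rintro ⟨h0, h1⟩ k
    fin_cases k
    · simp only [Fin.zero_eta, Fin.isValue, ex_zero]; omega
    · simp only [Fin.mk_one, Fin.isValue, ex_one]; omega

theorem ww_pow (i j : ℕ) : ww 0 ^ i * ww 1 ^ j =
    monomial (ex i j) 1 * ((wu 0 : Lam) ^ i * (wu 1 : Lam) ^ j) := by
  rw [ww_eq, ww_eq, mul_pow, mul_pow, ← pow_mul, ← pow_mul, X_pow_eq, X_pow_eq]
  have : (monomial (ex i j) (1 : ZMod 3) : Lam) = monomial (Finsupp.single 0 (2 * i)) 1 *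
      monomial (Finsupp.single 1 (2 * j)) 1 := by
    rw [monomial_mul_monomial, one_mul]; rfl
  rw [this]
  ring

theorem coeff_ww (i j i' j' : ℕ) (h : i' + j' ≤ i + j) :
    coeff (ex i' j') (ww 0 ^ i * ww 1 ^ j) = if i = i' ∧ j = j' then 1 else 0 := by
  rw [ww_pow, coeff_monomial_mul]
  by_cases hle : ex i j ≤ ex i' j'
  · rw [if_pos hle]
    rw [ex_le] at hle
    have h1 : i = i' := by omega
    have h2 : j = j' := by omega
    subst h1; subst h2
    rw [tsub_self, coeff_zero_eq_constantCoeff_apply, map_mul, map_pow, map_pow,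
      constantCoeff_wu, constantCoeff_wu]
    simp
  · rw [if_neg hle, if_neg]
    rintro ⟨rfl, rfl⟩
    exact hle le_rfl

/-- power series of order at least `m - 2` -/
noncomputable def II (m : ℕ) : Submodule (ZMod 3) Lam where
  carrier := {f | ((m - 2 : ℕ) : ℕ∞) ≤ f.order}
  add_mem' := by
    intro a b ha hb
    exact le_trans (le_min ha hb) min_order_le_add
  zero_mem' := by simp
  smul_mem' := by
    intro c f hf
    exact le_trans hf le_order_smul

theorem mem_II (m : ℕ) (f : Lam) : f ∈ II m ↔ ((m - 2 : ℕ) : ℕ∞) ≤ f.order := Iff.rfl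

theorem indep_aux (k : ℕ) (c : Fin k × Fin k → ZMod 3)
    (h : ((4 * k : ℕ) : ℕ∞) ≤
      (∑ p : Fin k × Fin k, c p • (ww 0 ^ (p.1 : ℕ) * ww 1 ^ (p.2 : ℕ))).order) :
    ∀ p, c p = 0 := by
  have key : ∀ N : ℕ, ∀ p : Fin k × Fin k, (p.1 : ℕ) + (p.2 : ℕ) = N → c p = 0 := by
    intro N
    induction N using Nat.strong_induction_on with
    | _ N ih =>
      intro p hp
      have hlt : ((ex p.1 p.2).degree : ℕ∞) <
          (∑ p : Fin k × Fin k, c p • (ww 0 ^ (p.1 : ℕ) * ww 1 ^ (p.2 : ℕ))).order := by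
        refine lt_of_lt_of_le ?_ h
        rw [ex_degree]
        have h1 := p.1.2
        have h2 := p.2.2
        exact_mod_cast (by omega : 2 * (p.1 : ℕ) + 2 * (p.2 : ℕ) < 4 * k)
      have h0 := coeff_of_lt_order hlt
      rw [map_sum, Finset.sum_eq_single p] at h0
      · rw [map_smul, coeff_ww _ _ _ _ le_rfl, if_pos ⟨rfl, rfl⟩] at h0
        simpa using h0
      · intro q _ hq
        rw [map_smul]
        by_cases hqs : (q.1 : ℕ) + (q.2 : ℕ) < N
        · rw [ih _ hqs q rfl, zero_smul]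
        · rw [coeff_ww _ _ _ _ (by omega), if_neg, smul_zero]
          rintro ⟨h1, h2⟩
          exact hq (Prod.ext (Fin.ext h1) (Fin.ext h2))
      · intro hp; exact absurd (Finset.mem_univ p) hp
  exact fun p => key _ p rfl

theorem lower_bound (T : Lam) (hT : T ≠ 0) (VN : Set Lam)
    (hVN : ∀ i j : ℕ, T * (ww 0 ^ i * ww 1 ^ j) ∈ VN) (C : ℕ)
    (hup : ∀ e : ℕ, ∃ X : Finset Lam, X.card ≤ C * 3 ^ e ∧
      ∀ x ∈ VN, x ∈ Submodule.span (ZMod 3) (X : Set Lam) ⊔ II (3 ^ e)) : False := by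
  classical
  obtain ⟨d, hd⟩ : ∃ d : ℕ, T.order = d := by
    have h1 := (ne_zero_iff_order_finite (f := T)).mp hT
    exact ⟨_, h1.symm⟩
  set e := C + d + 6 with he
  obtain ⟨X, hX1, hX2⟩ := hup e
  set k := 3 ^ (e - 2) with hk
  let q : Lam →ₗ[ZMod 3] Lam ⧸ II (3 ^ e) := (II (3 ^ e)).mkQ
  have hlin : LinearIndependent (ZMod 3)
      (fun p : Fin k × Fin k => q (T * (ww 0 ^ (p.1 : ℕ) * ww 1 ^ (p.2 : ℕ)))) := by
    rw [Fintype.linearIndependent_iff]
    intro c hc
    apply indep_aux k c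
    have h1 : (∑ p : Fin k × Fin k, c p • q (T * (ww 0 ^ (p.1 : ℕ) * ww 1 ^ (p.2 : ℕ)))) =
        q (T * ∑ p : Fin k × Fin k, c p • (ww 0 ^ (p.1 : ℕ) * ww 1 ^ (p.2 : ℕ))) := by
      rw [Finset.mul_sum, map_sum]
      apply Finset.sum_congr rfl
      intro p _
      rw [mul_smul_comm, map_smul]
    rw [h1] at hc
    have h2 := (Submodule.Quotient.mk_eq_zero _).mp hc
    rw [mem_II, order_mul, hd] at h2
    by_contra hcon
    rw [not_le] at hcon
    have h3 : (d : ℕ∞) + (∑ p : Fin k × Fin k,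
        c p • (ww 0 ^ (p.1 : ℕ) * ww 1 ^ (p.2 : ℕ))).order < (d : ℕ∞) + ((4 * k : ℕ) : ℕ∞) := by
      rw [ENat.add_lt_add_iff_left (ENat.natCast_ne_top d)]
      exact hcon
    have h4 := lt_of_le_of_lt h2 h3
    have h5 : 3 ^ e - 2 < d + 4 * k := by exact_mod_cast h4
    have h6 : 3 ^ e = 9 * k := by
      rw [hk, show e = (e - 2) + 2 by omega, pow_add]
      simp only [Nat.add_sub_cancel]
      ring
    have h7 : e - 2 < 3 ^ (e - 2) := Nat.lt_pow_self (by norm_num)
    omega
  -- the span of X in the quotient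
  let W : Submodule (ZMod 3) (Lam ⧸ II (3 ^ e)) :=
    Submodule.span (ZMod 3) ((X.image q : Finset _) : Set (Lam ⧸ II (3 ^ e)))
  have hmem : ∀ x ∈ VN, q x ∈ W := by
    intro x hx
    have h1 := hX2 x hx
    rw [Submodule.mem_sup] at h1
    obtain ⟨y, hy, z, hz, rfl⟩ := h1
    rw [map_add]
    have hz' : q z = 0 := (Submodule.Quotient.mk_eq_zero _).mpr hz
    rw [hz', add_zero]
    have : (Submodule.span (ZMod 3) (X : Set Lam)).map q = W := by
      rw [Submodule.map_span]
      simp only [W, Finset.coe_image]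
    rw [← this]
    exact ⟨y, hy, rfl⟩
  let f : Fin k × Fin k → W := fun p =>
    ⟨q (T * (ww 0 ^ (p.1 : ℕ) * ww 1 ^ (p.2 : ℕ))), hmem _ (hVN _ _)⟩
  have hf : LinearIndependent (ZMod 3) f := by
    apply LinearIndependent.of_comp W.subtype
    exact hlin
  have hWfin : Module.Finite (ZMod 3) W := Module.Finite.span_finset (ZMod 3) (X.image q)
  have h1 := hf.fintype_card_le_finrank
  have h2 : Module.finrank (ZMod 3) W ≤ (X.image q).card := finrank_span_finset_le_card _
  have h3 : Fintype.card (Fin k × Fin k) = k * k := by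
    rw [Fintype.card_prod, Fintype.card_fin]
  have h4 : (X.image q).card ≤ X.card := Finset.card_image_le
  have h5 : k * k ≤ C * 3 ^ e := by
    rw [← h3]; exact h1.trans (h2.trans (h4.trans hX1))
  have h6 : 3 ^ e = 9 * k := by
    rw [hk, show e = (e - 2) + 2 by omega, pow_add]
    simp only [Nat.add_sub_cancel]
    ring
  rw [h6] at h5
  have hkpos : 0 < k := Nat.pow_pos (by norm_num)
  have h7 : k ≤ C * 9 := by
    have : k * k ≤ C * 9 * k := by linarith
    exact Nat.le_of_mul_le_mul_right this hkpos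
  have h8 : k = 9 * 3 ^ (C + d + 2) := by
    rw [hk, he, show C + d + 6 - 2 = (C + d + 2) + 2 by omega, pow_add]; ring
  have h9 : C + d + 2 < 3 ^ (C + d + 2) := Nat.lt_pow_self (by norm_num)
  omega

end Pool.Agent.Helper688.LPres
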