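import Pool.Agent.Helper688.LPres.Period

set_option autoImplicit false

namespace Pool.Agent.Helper688.LPres

open MonoidAlgebra

/-- The intersection of the kernels of all homomorphisms to `S`. -/
def verb (F S : Type*) [Group F] [Group S] : Subgroup F := ⨅ h : F →* S, h.ker

theorem verb_normal (F S : Type*) [Group F] [Group S] : (verb F S).Normal :=
  Subgroup.normal_iInf_normal fun _ => inferInstance

theorem verb_map {F S : Type*} [Group F] [Group S] (τ : F →* F) (x : F) (hx : x ∈ verb F S) :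
    τ x ∈ verb F S := by
  unfold verb at hx ⊢
  rw [Subgroup.mem_iInf] at hx ⊢
  intro h
  exact hx (h.comp τ)

theorem verb_le {F S : Type*} [Group F] [Group S] (h : F →* S) : verb F S ≤ h.ker :=
  iInf_le _ h

theorem verb_finite (n : ℕ) (S : Type*) [Group S] [Finite S] :
    (verb (FreeGroup (Fin n)) S).FiniteIndex := by
  have hF : Finite (FreeGroup (Fin n) →* S) := Finite.of_equiv _ FreeGroup.lift
  exact Subgroup.finiteIndex_iInf fun h => inferInstance

/-- The free group of rank `n`. -/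
abbrev FG (n : ℕ) := FreeGroup (Fin n)

/-- the relators of an `L`-presentation -/
def lrels {n : ℕ} (R Q : Set (FreeGroup (Fin n))) (τ : FreeGroup (Fin n) →* FreeGroup (Fin n)) :
    Set (FreeGroup (Fin n)) := R ∪ ⋃ j : ℕ, (⇑τ)^[j] '' Q

theorem growth {n : ℕ} (R Q : Set (FreeGroup (Fin n))) (hR : R.Finite) (hQ : Q.Finite)
    (τ : FreeGroup (Fin n) →* FreeGroup (Fin n)) {S : Type*} [Group S] [Finite S]
    (s : FreeGroup (Fin n) →* S) {V : Type*} [AddCommGroup V] [Module (ZMod 3) V]
    (v : FreeGroup (Fin n) → V) (I : ℕ → Submodule (ZMod 3) V)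
    (hadd : ∀ x ∈ Subgroup.normalClosure (lrels R Q τ),
      ∀ y ∈ Subgroup.normalClosure (lrels R Q τ), v (x * y) = v x + v y)
    (hconj : ∀ y, s y = 1 → ∀ x ∈ Subgroup.normalClosure (lrels R Q τ), v (y * x * y⁻¹) = v x)
    (hcong : ∀ i, ∀ x ∈ Subgroup.normalClosure (lrels R Q τ),
      ∀ y ∈ Subgroup.normalClosure (lrels R Q τ),
      of (ZMod 3) _ x - of (ZMod 3) _ y ∈ KK (verb (FreeGroup (Fin n)) S) ^ i →
        v x - v y ∈ I i) :
    ∃ C : ℕ, ∀ e : ℕ, ∃ X : Finset V, X.card ≤ C * 3 ^ e ∧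
      ∀ x ∈ Subgroup.normalClosure (lrels R Q τ),
        v x ∈ Submodule.span (ZMod 3) (X : Set V) ⊔ I (3 ^ e) := by
  classical
  let T : Monoid.End (FG n) := τ
  set N := Subgroup.normalClosure (lrels R Q τ) with hN
  set F₁ := verb (FG n) S with hF₁
  have hnorm : F₁.Normal := verb_normal (FG n) S
  have hfin : F₁.FiniteIndex := verb_finite n S
  obtain ⟨k, hk1, hk⟩ := exists_idem F₁ T
  have hrep : ∀ w : S, ∃ g : FG n, (∃ g', s g' = w) → s g = w := by
    intro w
    by_cases h : ∃ g', s g' = w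
    · exact ⟨h.choose, fun _ => h.choose_spec⟩
    · exact ⟨1, fun h' => absurd h' h⟩
  choose rep hrep using hrep
  have hrels : lrels R Q τ ⊆ N := Subgroup.subset_normalClosure
  have hNnorm : N.Normal := Subgroup.normalClosure_normal
  have hiter : ∀ j (x : FG n), (⇑τ)^[j] x = (T ^ j) x := by
    intro j x
    rw [Monoid.End.coe_pow]
    rfl
  have hqN : ∀ q ∈ Q, ∀ j, (T ^ j) q ∈ N := by
    intro q hq j
    apply hrels
    right
    rw [Set.mem_iUnion]
    exact ⟨j, q, hq, hiter j q⟩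
  have hrN : ∀ r ∈ R, r ∈ N := fun r hr => hrels (Or.inl hr)
  have : Fintype S := Fintype.ofFinite S
  refine ⟨Fintype.card S * hR.toFinset.card + Fintype.card S * hQ.toFinset.card * (2 * k), ?_⟩
  intro e
  set X1 : Finset V := (Finset.univ ×ˢ hR.toFinset).image
    (fun p : S × FG n => v (rep p.1 * p.2 * (rep p.1)⁻¹)) with hX1
  set X2 : Finset V := ((Finset.univ ×ˢ hQ.toFinset) ×ˢ Finset.range (2 * 3 ^ e * k)).image
    (fun p : (S × FG n) × ℕ => v (rep p.1.1 * (T ^ p.2) p.1.2 * (rep p.1.1)⁻¹))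
    with hX2
  refine ⟨X1 ∪ X2, ?_, ?_⟩
  · have h1 : X1.card ≤ Fintype.card S * hR.toFinset.card := by
      refine Finset.card_image_le.trans ?_
      rw [Finset.card_product, Finset.card_univ]
    have h2 : X2.card ≤ Fintype.card S * hQ.toFinset.card * (2 * 3 ^ e * k) := by
      refine Finset.card_image_le.trans ?_
      rw [Finset.card_product, Finset.card_product, Finset.card_univ, Finset.card_range]
    have h3 := Finset.card_union_le X1 X2
    have h4 : 1 ≤ 3 ^ e := Nat.one_le_pow e 3 (by norm_num)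
    calc (X1 ∪ X2).card ≤ X1.card + X2.card := h3
      _ ≤ Fintype.card S * hR.toFinset.card +
          Fintype.card S * hQ.toFinset.card * (2 * 3 ^ e * k) := add_le_add h1 h2
      _ ≤ Fintype.card S * hR.toFinset.card * 3 ^ e +
          Fintype.card S * hQ.toFinset.card * (2 * 3 ^ e * k) := by
            apply Nat.add_le_add_right
            exact Nat.le_mul_of_pos_right _ h4
      _ = _ := by ring
  set W := Submodule.span (ZMod 3) ((X1 ∪ X2 : Finset V) : Set V) ⊔ I (3 ^ e) with hW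
  -- the algebra endomorphism
  set t : MonoidAlgebra (ZMod 3) (FG n) →ₐ[ZMod 3] MonoidAlgebra (ZMod 3) (FG n) :=
    mapDomainAlgHom (ZMod 3) (ZMod 3) τ with ht
  have htof : ∀ x : FG n, t (of (ZMod 3) (FG n) x) = of (ZMod 3) (FG n) (τ x) := by
    intro x
    simp [ht, mapDomainAlgHom]
  have htpow : ∀ j (x : FG n), (t ^ j) (of (ZMod 3) (FG n) x) =
      of (ZMod 3) (FG n) ((T ^ j) x) := by
    intro j
    induction j with
    | zero => intro x; rfl
    | succ j ih =>
      intro x
      rw [pow_succ, pow_succ]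
      change (t ^ j) (t _) = of (ZMod 3) (FG n) ((T ^ j) (τ x))
      rw [htof, ih]
  have htK : ∀ x ∈ KK F₁, t x ∈ KK F₁ := KK_map F₁ τ (fun h hh => verb_map τ h hh)
  have htpK : ∀ j, ∀ x ∈ KK F₁, (t ^ j) x ∈ KK F₁ := by
    intro j
    induction j with
    | zero => intro x hx; exact hx
    | succ j ih =>
      intro x hx
      rw [pow_succ]
      exact ih _ (htK x hx)
  have h2 : ∀ x, (t ^ k) ((t ^ k) x) - (t ^ k) x ∈ KK F₁ ^ 2 := by
    intro x
    induction x using MonoidAlgebra.induction_on with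
    | of g =>
      rw [htpow, htpow]
      exact hk g
    | add x y hx hy =>
      have : (t ^ k) ((t ^ k) (x + y)) - (t ^ k) (x + y) =
          ((t ^ k) ((t ^ k) x) - (t ^ k) x) + ((t ^ k) ((t ^ k) y) - (t ^ k) y) := by
        simp only [map_add]; abel
      rw [this]
      exact Submodule.add_mem _ hx hy
    | smul r x hx =>
      have : (t ^ k) ((t ^ k) (r • x)) - (t ^ k) (r • x) =
          r • ((t ^ k) ((t ^ k) x) - (t ^ k) x) := by
        simp only [map_smul, smul_sub]
      rw [this]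
      exact Submodule.smul_mem _ _ hx
  have hper := fun x => period (KK F₁) (KK_sq_le F₁) (t ^ k) (htpK k) h2 e x
  have hcg : ∀ (j : ℕ) (q : FG n), of (ZMod 3) (FG n) ((T ^ (j + 2 * 3 ^ e * k)) q) -
      of (ZMod 3) (FG n) ((T ^ (j + 3 ^ e * k)) q) ∈ KK F₁ ^ (3 ^ e) := by
    intro j q
    have h3 := hper (of (ZMod 3) (FG n) q)
    have h4 := map_pow_mem (KK F₁) (t ^ j) (htpK j) (3 ^ e) _ h3
    rw [map_sub, ← pow_mul, ← pow_mul] at h4
    have e1 : (t ^ j) ((t ^ (k * (2 * 3 ^ e))) (of (ZMod 3) (FG n) q)) =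
        of (ZMod 3) (FG n) ((T ^ (j + 2 * 3 ^ e * k)) q) := by
      rw [← htpow, show j + 2 * 3 ^ e * k = j + k * (2 * 3 ^ e) by ring, pow_add]
      rfl
    have e2 : (t ^ j) ((t ^ (k * 3 ^ e)) (of (ZMod 3) (FG n) q)) =
        of (ZMod 3) (FG n) ((T ^ (j + 3 ^ e * k)) q) := by
      rw [← htpow, show j + 3 ^ e * k = j + k * 3 ^ e by ring, pow_add]
      rfl
    rw [e1, e2] at h4
    exact h4
  have hpos : 0 < 3 ^ e := Nat.pow_pos (by norm_num)
  -- claim 1
  have hc1 : ∀ q ∈ Q, ∀ (w : S) (j : ℕ),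
      v (rep w * (T ^ j) q * (rep w)⁻¹) ∈ W := by
    intro q hq w j
    induction j using Nat.strong_induction_on with
    | _ j ih =>
      by_cases hj : j < 2 * 3 ^ e * k
      · apply Submodule.mem_sup_left
        apply Submodule.subset_span
        rw [Finset.mem_coe, Finset.mem_union]
        right
        rw [hX2, Finset.mem_image]
        exact ⟨((w, q), j), by simp [hq, hj], rfl⟩
      · obtain ⟨i, rfl⟩ : ∃ i, j = i + 2 * 3 ^ e * k := ⟨j - 2 * 3 ^ e * k, by omega⟩
        have hlt : i + 3 ^ e * k < i + 2 * 3 ^ e * k := by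
          have : 0 < 3 ^ e * k := Nat.mul_pos hpos hk1
          nlinarith
        have h3 := ih _ hlt
        have h4 : v (rep w * (T ^ (i + 2 * 3 ^ e * k)) q * (rep w)⁻¹) -
            v (rep w * (T ^ (i + 3 ^ e * k)) q * (rep w)⁻¹) ∈ I (3 ^ e) := by
          apply hcong (3 ^ e) _ (hNnorm.conj_mem _ (hqN q hq _) _) _
            (hNnorm.conj_mem _ (hqN q hq _) _)
          have h5 : of (ZMod 3) (FG n) (rep w * (T ^ (i + 2 * 3 ^ e * k)) q *
              (rep w)⁻¹) - of (ZMod 3) (FG n) (rep w * (T ^ (i + 3 ^ e * k)) q *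
              (rep w)⁻¹) = of (ZMod 3) (FG n) (rep w) *
              (of (ZMod 3) (FG n) ((T ^ (i + 2 * 3 ^ e * k)) q) -
                of (ZMod 3) (FG n) ((T ^ (i + 3 ^ e * k)) q)) *
              of (ZMod 3) (FG n) (rep w)⁻¹ := by
            simp only [map_mul, mul_sub, sub_mul]
          rw [h5]
          obtain ⟨m, hm⟩ : ∃ m, 3 ^ e = m + 1 := ⟨3 ^ e - 1, by omega⟩
          have h6 := hcg i q
          rw [hm] at h6 ⊢
          exact KK_pow_right F₁ m (KK_pow_left F₁ m h6 _) _
        have h5 := Submodule.add_mem W (Submodule.mem_sup_right h4) h3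
        rwa [sub_add_cancel] at h5
  -- claim 2
  have hc2 : ∀ r ∈ lrels R Q τ, ∀ w : S, v (rep w * r * (rep w)⁻¹) ∈ W := by
    intro r hr w
    rcases hr with hr | hr
    · apply Submodule.mem_sup_left
      apply Submodule.subset_span
      rw [Finset.mem_coe, Finset.mem_union]
      left
      rw [hX1, Finset.mem_image]
      exact ⟨(w, r), by simp [hr], rfl⟩
    · rw [Set.mem_iUnion] at hr
      obtain ⟨j, q, hq, rfl⟩ := hr
      rw [hiter]
      exact hc1 q hq w j
  have hv1 : v 1 = 0 := by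
    have := hadd 1 (one_mem _) 1 (one_mem _)
    rw [mul_one] at this
    simpa using this
  intro x hx
  have hx' : x ∈ Subgroup.closure (Group.conjugatesOfSet (lrels R Q τ)) := hx
  clear hx
  induction hx' using Subgroup.closure_induction with
  | mem x hx =>
    rw [Group.mem_conjugatesOfSet_iff] at hx
    obtain ⟨r, hr, hrx⟩ := hx
    rw [isConj_iff] at hrx
    obtain ⟨y, rfl⟩ := hrx
    have h3 : s (y * (rep (s y))⁻¹) = 1 := by
      rw [map_mul, map_inv, hrep (s y) ⟨y, rfl⟩, mul_inv_cancel]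
    have h4 := hconj _ h3 (rep (s y) * r * (rep (s y))⁻¹) (hNnorm.conj_mem _ (hrels hr) _)
    have h5 : y * (rep (s y))⁻¹ * (rep (s y) * r * (rep (s y))⁻¹) * (y * (rep (s y))⁻¹)⁻¹ =
        y * r * y⁻¹ := by group
    rw [h5] at h4
    rw [h4]
    exact hc2 r hr _
  | one => rw [hv1]; exact Submodule.zero_mem _
  | mul x y hx hy ihx ihy =>
    rw [hadd x hx y hy]
    exact Submodule.add_mem _ ihx ihy
  | inv x hx ih =>
    have h3 := hadd x hx x⁻¹ (inv_mem hx)
    rw [mul_inv_cancel, hv1] at h3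
    have h4 : v x⁻¹ = - v x := (neg_eq_of_add_eq_zero_right h3.symm).symm
    rw [h4]
    exact Submodule.neg_mem _ ih

end Pool.Agent.Helper688.LPres
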