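import Pool.Agent.Helper688.LPres.Box

set_option autoImplicit false

namespace Pool.Agent.Helper688.LPres

theorem not_free_of_solvable {G : Type*} [Group G] (hG : Group.IsSolvable G) :
    ¬ ∃ f : FreeGroup (Fin 2) →* G, Function.Injective f := by
  rintro ⟨f, hf⟩
  have h1 : Group.IsSolvable (FreeGroup (Fin 2)) := Group.isSolvable_of_isSolvable_injective hf
  have h2 : Function.Surjective (FreeGroup.lift
      (![finRotate 5, Equiv.swap (0 : Fin 5) (finRotate 5 0)] : Fin 2 → Equiv.Perm (Fin 5))) := by
    rw [← MonoidHom.range_eq_top, eq_top_iff,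
      ← Equiv.Perm.closure_cycle_adjacent_swap (σ := finRotate 5) isCycle_finRotate
        support_finRotate 0, Subgroup.closure_le]
    rintro x (rfl | rfl)
    · exact ⟨FreeGroup.of 0, by simp⟩
    · exact ⟨FreeGroup.of 1, by simp⟩
  exact Equiv.Perm.not_isSolvable_fin_5 (Group.isSolvable_of_surjective h2)

variable {G : Type*} [Group G] {a u θ : G}

theorem solvable_of_rel (h : BaseRel a u θ) {ε : G} (hea : ε * a * ε⁻¹ = a⁻¹)
    (heu : Commute ε u) (het : Commute ε θ) (hgen : Subgroup.closure {a, u, θ, ε} = ⊤) :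
    Group.IsSolvable G := by
  have hB := BB_normal h hea heu het hgen
  have hee : ∀ t ∈ TT u θ, Commute ε t := by
    intro t ht
    unfold TT at ht
    induction ht using Subgroup.closure_induction with
    | mem x hx =>
      obtain ⟨i, rfl⟩ := hx
      exact ((het.zpow_right i).mul_right heu).mul_right (het.zpow_right _)
    | one => exact Commute.one_right _
    | mul x y _ _ hx hy => exact hx.mul_right hy
    | inv x _ hx => exact hx.inv_right
  have hu : u ∈ TT u θ := by
    have : ee u θ 0 ∈ TT u θ := Subgroup.subset_closure ⟨0, rfl⟩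
    rwa [ee_zero] at this
  have ha : a ∈ BB a u θ := Subgroup.subset_closure ⟨1, one_mem _, by simp⟩
  -- the quotient by BB
  let q : G →* G ⧸ BB a u θ := QuotientGroup.mk' _
  have hq : Function.Surjective q := QuotientGroup.mk'_surjective _
  have hqa : q a = 1 := (QuotientGroup.eq_one_iff _).mpr ha
  let T : Subgroup (G ⧸ BB a u θ) := (TT u θ).map q
  have hTcomm : ∀ x ∈ T, ∀ y ∈ T, x * y = y * x := by
    rintro _ ⟨x, hx, rfl⟩ _ ⟨y, hy, rfl⟩
    rw [← map_mul, ← map_mul, (TT_comm h x hx y hy).eq]
  have hgenq : ∀ (P : G ⧸ BB a u θ → Prop), P 1 → P (q u) → P (q θ) → P (q ε) →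
      (∀ x y, P x → P y → P (x * y)) → (∀ x, P x → P x⁻¹) → ∀ x, P x := by
    intro P h1 h2 h3 h4 h5 h6 x
    obtain ⟨g, rfl⟩ := hq x
    have hg : g ∈ Subgroup.closure ({a, u, θ, ε} : Set G) := by rw [hgen]; trivial
    induction hg using Subgroup.closure_induction with
    | mem x hx =>
      simp only [Set.mem_insert_iff, Set.mem_singleton_iff] at hx
      rcases hx with rfl | rfl | rfl | rfl
      · rw [hqa]; exact h1
      · exact h2
      · exact h3
      · exact h4
    | one => rw [map_one]; exact h1
    | mul x y _ _ hx hy => rw [map_mul]; exact h5 _ _ hx hy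
    | inv x _ hx => rw [map_inv]; exact h6 _ hx
  have hTn : T.Normal := by
    constructor
    intro n hn g
    have : (∀ x ∈ T, g * x * g⁻¹ ∈ T) ∧ (∀ x ∈ T, g⁻¹ * x * g⁻¹⁻¹ ∈ T) := by
      revert g
      apply hgenq
      · exact ⟨fun x hx => by simpa using hx, fun x hx => by simpa using hx⟩
      · have hqu : q u ∈ T := ⟨u, hu, rfl⟩
        exact ⟨fun x hx => mul_mem (mul_mem hqu hx) (inv_mem hqu),
          fun x hx => mul_mem (mul_mem (inv_mem hqu) hx) (inv_mem (inv_mem hqu))⟩
      · constructor
        · rintro _ ⟨x, hx, rfl⟩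
          refine ⟨θ * x * θ⁻¹, by simpa using TT_theta (u := u) (θ := θ) 1 x hx, ?_⟩
          simp only [map_mul, map_inv]
        · rintro _ ⟨x, hx, rfl⟩
          refine ⟨θ⁻¹ * x * θ, by simpa using TT_theta (u := u) (θ := θ) (-1) x hx, ?_⟩
          simp only [map_mul, map_inv, inv_inv]
      · constructor
        · rintro _ ⟨x, hx, rfl⟩
          refine ⟨x, hx, ?_⟩
          rw [← map_inv, ← map_mul, ← map_mul, (hee x hx).eq, mul_inv_cancel_right]
        · rintro _ ⟨x, hx, rfl⟩
          refine ⟨x, hx, ?_⟩
          rw [inv_inv, ← map_inv, ← map_mul, ← map_mul, ((hee x hx).inv_left).eq,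
            inv_mul_cancel_right]
      · intro x y hx hy
        refine ⟨fun z hz => ?_, fun z hz => ?_⟩
        · have := hx.1 _ (hy.1 z hz)
          have e : x * (y * z * y⁻¹) * x⁻¹ = x * y * z * (x * y)⁻¹ := by group
          rwa [e] at this
        · have := hy.2 _ (hx.2 z hz)
          have e : y⁻¹ * (x⁻¹ * z * x⁻¹⁻¹) * y⁻¹⁻¹ = (x * y)⁻¹ * z * (x * y)⁻¹⁻¹ := by group
          rwa [e] at this
      · intro x hx
        exact ⟨hx.2, by rw [inv_inv]; exact hx.1⟩
    exact this.1 n hn
  -- the second quotient is commutative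
  let r : (G ⧸ BB a u θ) →* ((G ⧸ BB a u θ) ⧸ T) := QuotientGroup.mk' _
  have hr : Function.Surjective r := QuotientGroup.mk'_surjective _
  have hru : r (q u) = 1 := (QuotientGroup.eq_one_iff _).mpr ⟨u, hu, rfl⟩
  have hcomm2 : ∀ x y : G ⧸ BB a u θ, Commute (r x) (r y) := by
    have hθ : ∀ y, Commute (r (q θ)) (r y) := by
      apply hgenq
      · rw [map_one]; exact Commute.one_right _
      · rw [hru]; exact Commute.one_right _
      · exact Commute.refl _
      · exact ((het.symm.map q).map r)
      · intro x y hx hy; rw [map_mul]; exact hx.mul_right hy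
      · intro x hx; rw [map_inv]; exact hx.inv_right
    have hε : ∀ y, Commute (r (q ε)) (r y) := by
      apply hgenq
      · rw [map_one]; exact Commute.one_right _
      · rw [hru]; exact Commute.one_right _
      · exact ((het.map q).map r)
      · exact Commute.refl _
      · intro x y hx hy; rw [map_mul]; exact hx.mul_right hy
      · intro x hx; rw [map_inv]; exact hx.inv_right
    intro x y
    revert x
    apply hgenq
    · rw [map_one]; exact Commute.one_left _
    · rw [hru]; exact Commute.one_left _
    · exact hθ y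
    · exact hε y
    · intro x z hx hz; rw [map_mul]; exact hx.mul_left hz
    · intro x hx; rw [map_inv]; exact hx.inv_left
  have s3 : Group.IsSolvable ((G ⧸ BB a u θ) ⧸ T) := by
    apply Group.isSolvable_of_comm
    intro x y
    obtain ⟨x, rfl⟩ := hr x
    obtain ⟨y, rfl⟩ := hr y
    exact hcomm2 x y
  have s2 : Group.IsSolvable T := by
    apply Group.isSolvable_of_comm
    rintro ⟨x, hx⟩ ⟨y, hy⟩
    exact Subtype.ext (hTcomm x hx y hy)
  have s1 : Group.IsSolvable (BB a u θ) := by
    apply Group.isSolvable_of_comm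
    rintro ⟨x, hx⟩ ⟨y, hy⟩
    exact Subtype.ext (BB_comm h x hx y hy)
  have s4 : Group.IsSolvable (G ⧸ BB a u θ) := (Group.isSolvable_iff_subgroup_quotient T).mpr ⟨s2, s3⟩
  exact (Group.isSolvable_iff_subgroup_quotient (BB a u θ)).mpr ⟨s1, s4⟩

/-- Commutators with `ε` lie in the normal closure of `a`. -/
theorem commutator_eps {ε : G} (heu : Commute ε u) (het : Commute ε θ)
    (hgen : Subgroup.closure {a, u, θ, ε} = ⊤) (g : G) :
    g * ε * g⁻¹ * ε⁻¹ ∈ Subgroup.normalClosure {a} := by
  have hN : (Subgroup.normalClosure ({a} : Set G)).Normal := Subgroup.normalClosure_normal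
  let q : G →* G ⧸ Subgroup.normalClosure ({a} : Set G) := QuotientGroup.mk' _
  have hqa : q a = 1 := (QuotientGroup.eq_one_iff _).mpr
    (Subgroup.subset_normalClosure (Set.mem_singleton a))
  have h1 : Commute (q g) (q ε) := by
    have hg : g ∈ Subgroup.closure ({a, u, θ, ε} : Set G) := by rw [hgen]; trivial
    induction hg using Subgroup.closure_induction with
    | mem x hx =>
      simp only [Set.mem_insert_iff, Set.mem_singleton_iff] at hx
      rcases hx with rfl | rfl | rfl | rfl
      · rw [hqa]; exact Commute.one_left _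
      · exact (heu.map q).symm
      · exact (het.map q).symm
      · exact Commute.refl _
    | one => rw [map_one]; exact Commute.one_left _
    | mul x y _ _ hx hy => rw [map_mul]; exact hx.mul_left hy
    | inv x _ hx => rw [map_inv]; exact hx.inv_left
  apply (QuotientGroup.eq_one_iff _).mp
  change q (g * ε * g⁻¹ * ε⁻¹) = 1
  simp only [map_mul, map_inv]
  rw [h1.eq]; group

end Pool.Agent.Helper688.LPres
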