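import Pool.Agent.Helper688.LPres.Laurent
import Pool.Agent.Helper688.LPres.Solv

set_option autoImplicit false

namespace Pool.Agent.Helper688.LPres

/-- affine maps `x ↦ m x + r` -/
@[ext]
structure Aff (S : Type*) [CommRing S] where
  m : Sˣ
  r : S

namespace Aff

variable {S : Type*} [CommRing S]

instance : Mul (Aff S) := ⟨fun x y => ⟨x.m * y.m, x.r + x.m * y.r⟩⟩
instance : One (Aff S) := ⟨⟨1, 0⟩⟩
instance : Inv (Aff S) := ⟨fun x => ⟨x.m⁻¹, -(x.m⁻¹ * x.r)⟩⟩

theorem mul_m (x y : Aff S) : (x * y).m = x.m * y.m := rfl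
theorem mul_r (x y : Aff S) : (x * y).r = x.r + x.m * y.r := rfl
theorem one_m : (1 : Aff S).m = 1 := rfl
theorem one_r : (1 : Aff S).r = 0 := rfl
theorem inv_m (x : Aff S) : (x⁻¹).m = x.m⁻¹ := rfl
theorem inv_r (x : Aff S) : (x⁻¹).r = -((x.m⁻¹ : Sˣ) * x.r) := rfl

instance : Group (Aff S) where
  mul_assoc x y z := by
    ext
    · simp only [mul_m, mul_assoc]
    · simp only [mul_m, mul_r, Units.val_mul]; ring
  one_mul x := by
    ext
    · simp only [mul_m, one_m, one_mul]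
    · simp only [mul_r, one_r, one_m, Units.val_one]; ring
  mul_one x := by
    ext
    · simp only [mul_m, one_m, mul_one]
    · simp only [mul_r, one_r]; ring
  inv_mul_cancel x := by
    ext
    · simp only [mul_m, inv_m, one_m, inv_mul_cancel]
    · simp only [mul_r, inv_m, inv_r, one_r]; ring

/-- translation -/
def tr (r : S) : Aff S := ⟨1, r⟩

/-- homothety -/
def sc (m : Sˣ) : Aff S := ⟨m, 0⟩

theorem sc_mul (m n : Sˣ) : sc m * sc n = sc (m * n) := by
  ext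
  · rfl
  · simp [sc, mul_r]

theorem sc_inv (m : Sˣ) : (sc m)⁻¹ = sc (m⁻¹) := by
  ext
  · rfl
  · simp [sc, inv_r]

theorem tr_mul (x y : S) : tr x * tr y = tr (x + y) := by
  ext
  · simp [tr, mul_m]
  · simp [tr, mul_r]

theorem tr_inv (x : S) : (tr x)⁻¹ = tr (-x) := by
  ext
  · simp [tr, inv_m]
  · simp [tr, inv_r]

theorem tr_zero : tr (0 : S) = 1 := rfl

theorem sc_one : sc (1 : Sˣ) = 1 := rfl

theorem sc_tr_sc (m : Sˣ) (x : S) : sc m * tr x * sc m⁻¹ = tr (m * x) := by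
  ext
  · simp [tr, sc, mul_m]
  · simp [tr, sc, mul_r, mul_m]

/-- the linear part -/
def mH : Aff S →* Sˣ where
  toFun x := x.m
  map_one' := rfl
  map_mul' _ _ := rfl

end Aff

/-- The list of relators, in an arbitrary group. -/
def words {G : Type*} [Group G] (a u θ ε : G) : List G :=
  [a ^ 3, θ ^ 9, ε ^ 2, ε * u * ε⁻¹ * u⁻¹, ε * θ * ε⁻¹ * θ⁻¹, ε * a * ε⁻¹ * a,
    θ * a * θ⁻¹ * a⁻¹,
    u * ee u θ 1 * u⁻¹ * (ee u θ 1)⁻¹, u * ee u θ 2 * u⁻¹ * (ee u θ 2)⁻¹,
    u * ee u θ 3 * u⁻¹ * (ee u θ 3)⁻¹, u * ee u θ 4 * u⁻¹ * (ee u θ 4)⁻¹,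
    ee u θ 3 * a * (ee u θ 3)⁻¹ * (u * a * u⁻¹ * a)⁻¹,
    a * (ee u θ 0 * a * (ee u θ 0)⁻¹) * a⁻¹ * (ee u θ 0 * a * (ee u θ 0)⁻¹)⁻¹,
    a * (ee u θ 1 * a * (ee u θ 1)⁻¹) * a⁻¹ * (ee u θ 1 * a * (ee u θ 1)⁻¹)⁻¹,
    a * (ee u θ 2 * a * (ee u θ 2)⁻¹) * a⁻¹ * (ee u θ 2 * a * (ee u θ 2)⁻¹)⁻¹,
    a * (ee u θ 0 * ee u θ 1 * a * (ee u θ 0 * ee u θ 1)⁻¹) * a⁻¹ *
      (ee u θ 0 * ee u θ 1 * a * (ee u θ 0 * ee u θ 1)⁻¹)⁻¹,
    a * (ee u θ 0 * ee u θ 2 * a * (ee u θ 0 * ee u θ 2)⁻¹) * a⁻¹ *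
      (ee u θ 0 * ee u θ 2 * a * (ee u θ 0 * ee u θ 2)⁻¹)⁻¹,
    a * (ee u θ 1 * ee u θ 2 * a * (ee u θ 1 * ee u θ 2)⁻¹) * a⁻¹ *
      (ee u θ 1 * ee u θ 2 * a * (ee u θ 1 * ee u θ 2)⁻¹)⁻¹,
    a * (ee u θ 0 * ee u θ 1 * ee u θ 2 * a * (ee u θ 0 * ee u θ 1 * ee u θ 2)⁻¹) * a⁻¹ *
      (ee u θ 0 * ee u θ 1 * ee u θ 2 * a * (ee u θ 0 * ee u θ 1 * ee u θ 2)⁻¹)⁻¹]

theorem map_ee {G H : Type*} [Group G] [Group H] (f : G →* H) (u θ : G) (i : ℤ) :
    f (ee u θ i) = ee (f u) (f θ) i := by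
  unfold ee
  simp only [map_mul, map_zpow]

theorem map_words {G H : Type*} [Group G] [Group H] (f : G →* H) (a u θ ε : G) :
    (words a u θ ε).map f = words (f a) (f u) (f θ) (f ε) := by
  simp only [words, List.map_cons, List.map_nil, map_mul, map_inv, map_pow, map_ee]

/-- the finite set of relators -/
def relG : Set (FreeGroup (Fin 4)) :=
  {x | x ∈ words (FreeGroup.of (0 : Fin 4)) (FreeGroup.of 1) (FreeGroup.of 2) (FreeGroup.of 3)}

theorem relG_finite : relG.Finite := List.finite_toSet _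

/-- the finitely presented group -/
abbrev GG := PresentedGroup relG

/-- the generators -/
def ga : GG := PresentedGroup.of 0
def gu : GG := PresentedGroup.of 1
def gt : GG := PresentedGroup.of 2
def ge : GG := PresentedGroup.of 3

theorem words_GG : ∀ x ∈ words ga gu gt ge, x = 1 := by
  intro x hx
  have h1 : words ga gu gt ge = (words (FreeGroup.of (0 : Fin 4)) (FreeGroup.of 1)
      (FreeGroup.of 2) (FreeGroup.of 3)).map (PresentedGroup.mk relG) :=
    (map_words (PresentedGroup.mk relG) _ _ _ _).symm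
  rw [h1, List.mem_map] at hx
  obtain ⟨y, hy, rfl⟩ := hx
  exact PresentedGroup.one_of_mem hy

/-- homomorphisms out of `GG` -/
theorem exists_hom {H : Type*} [Group H] (a u θ ε : H) (h : ∀ x ∈ words a u θ ε, x = 1) :
    ∃ f : GG →* H, f ga = a ∧ f gu = u ∧ f gt = θ ∧ f ge = ε := by
  have h1 : ∀ r ∈ relG, FreeGroup.lift (![a, u, θ, ε] : Fin 4 → H) r = 1 := by
    intro r hr
    apply h
    have h2 := map_words (FreeGroup.lift (![a, u, θ, ε] : Fin 4 → H)) (FreeGroup.of 0)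
      (FreeGroup.of 1) (FreeGroup.of 2) (FreeGroup.of 3)
    simp only [FreeGroup.lift_apply_of, Matrix.cons_val_zero, Matrix.cons_val_one,
      Matrix.cons_val] at h2
    rw [← h2]
    exact List.mem_map_of_mem hr
  refine ⟨PresentedGroup.toGroup h1, ?_, ?_, ?_, ?_⟩
  · exact PresentedGroup.toGroup.of h1
  · exact PresentedGroup.toGroup.of h1
  · exact PresentedGroup.toGroup.of h1
  · exact PresentedGroup.toGroup.of h1

theorem gen_GG : Subgroup.closure ({ga, gu, gt, ge} : Set GG) = ⊤ := by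
  rw [eq_top_iff, ← PresentedGroup.closure_range_of relG, Subgroup.closure_le]
  rintro _ ⟨i, rfl⟩
  apply Subgroup.subset_closure
  fin_cases i
  · left; rfl
  · right; left; rfl
  · right; right; left; rfl
  · right; right; right; rfl

theorem comm_of_word {G : Type*} [Group G] {x y : G} (h : x * y * x⁻¹ * y⁻¹ = 1) :
    Commute x y := by
  have h1 : x * y * x⁻¹ = y := mul_inv_eq_one.mp h
  exact mul_inv_eq_iff_eq_mul.mp h1

theorem base_of_words {G : Type*} [Group G] {a u θ ε : G} (h : ∀ x ∈ words a u θ ε, x = 1) :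
    BaseRel a u θ ∧ a ^ 3 = 1 ∧ ε ^ 2 = 1 ∧ Commute ε u ∧ Commute ε θ ∧ ε * a * ε⁻¹ = a⁻¹ := by
  simp only [words, List.forall_mem_cons] at h
  obtain ⟨h1, h2, h3, h4, h5, h6, h7, h8, h9, h10, h11, h12, h13, h14, h15, h16, h17, h18,
    h19, -⟩ := h
  refine ⟨⟨h2, comm_of_word h7, comm_of_word h8, comm_of_word h9, comm_of_word h10,
    comm_of_word h11, mul_inv_eq_one.mp h12, comm_of_word h13, comm_of_word h14,
    comm_of_word h15, comm_of_word h16, comm_of_word h17, comm_of_word h18,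
    comm_of_word h19⟩, h1, h3, comm_of_word h4, comm_of_word h5, ?_⟩
  exact eq_inv_of_mul_eq_one_left h6

theorem base_GG : BaseRel ga gu gt := (base_of_words words_GG).1
theorem ga_cube : ga ^ 3 = 1 := (base_of_words words_GG).2.1
theorem ge_sq : ge ^ 2 = 1 := (base_of_words words_GG).2.2.1
theorem ge_comm_gu : Commute ge gu := (base_of_words words_GG).2.2.2.1
theorem ge_comm_gt : Commute ge gt := (base_of_words words_GG).2.2.2.2.1
theorem ge_ga : ge * ga * ge⁻¹ = ga⁻¹ := (base_of_words words_GG).2.2.2.2.2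

/-- induction on generators -/
theorem GG_ind {P : GG → Prop} (h1 : P 1) (ha : P ga) (hu : P gu) (ht : P gt) (he : P ge)
    (hmul : ∀ x y, P x → P y → P (x * y)) (hinv : ∀ x, P x → P x⁻¹) (x : GG) : P x := by
  have hx : x ∈ Subgroup.closure ({ga, gu, gt, ge} : Set GG) := by rw [gen_GG]; trivial
  induction hx using Subgroup.closure_induction with
  | mem x hx =>
    simp only [Set.mem_insert_iff, Set.mem_singleton_iff] at hx
    rcases hx with rfl | rfl | rfl | rfl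
    · exact ha
    · exact hu
    · exact ht
    · exact he
  | one => exact h1
  | mul x y _ _ hx hy => exact hmul _ _ hx hy
  | inv x _ hx => exact hinv _ hx

theorem GG_comm : ∀ x ∈ Subgroup.normalClosure {ga}, ∀ y ∈ Subgroup.normalClosure {ga},
    Commute x y :=
  normalClosure_comm base_GG ge_ga ge_comm_gu ge_comm_gt gen_GG

theorem GG_solvable : Group.IsSolvable GG :=
  solvable_of_rel base_GG ge_ga ge_comm_gu ge_comm_gt gen_GG

theorem GG_comm_eps (g : GG) : g * ge * g⁻¹ * ge⁻¹ ∈ Subgroup.normalClosure {ga} :=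
  commutator_eps ge_comm_gu ge_comm_gt gen_GG g

/-! ### The character and the sign -/

theorem exists_chi : ∃ f : GG →* Multiplicative ℤ, f ga = 1 ∧ f gu = Multiplicative.ofAdd 1 ∧
    f gt = 1 ∧ f ge = 1 := by
  apply exists_hom
  simp [words, ee]

/-- the character -/
noncomputable def chi : GG →* Multiplicative ℤ := exists_chi.choose
theorem chi_ga : chi ga = 1 := exists_chi.choose_spec.1
theorem chi_gu : chi gu = Multiplicative.ofAdd 1 := exists_chi.choose_spec.2.1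
theorem chi_gt : chi gt = 1 := exists_chi.choose_spec.2.2.1
theorem chi_ge : chi ge = 1 := exists_chi.choose_spec.2.2.2

theorem exists_sgn : ∃ f : GG →* (ZMod 3)ˣ, f ga = 1 ∧ f gu = 1 ∧
    f gt = 1 ∧ f ge = -1 := by
  apply exists_hom
  simp [words, ee]

/-- the sign -/
noncomputable def sgn : GG →* (ZMod 3)ˣ := exists_sgn.choose
theorem sgn_ga : sgn ga = 1 := exists_sgn.choose_spec.1
theorem sgn_gu : sgn gu = 1 := exists_sgn.choose_spec.2.1
theorem sgn_gt : sgn gt = 1 := exists_sgn.choose_spec.2.2.1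
theorem sgn_ge : sgn ge = -1 := exists_sgn.choose_spec.2.2.2

end Pool.Agent.Helper688.LPres
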