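import Pool.Agent.Helper688.LPres.Grp

set_option autoImplicit false
set_option maxHeartbeats 1000000

namespace Pool.Agent.Helper688.LPres

open Aff

/-- the index group -/
abbrev C9 := Multiplicative (ZMod 9)

/-- the wreath product -/
abbrev W9 := RegularWreathProduct (Aff SS) C9

/-- diagonal elements -/
def dg : (C9 → Aff SS) →* W9 where
  toFun f := ⟨f, 1⟩
  map_one' := rfl
  map_mul' f g := by
    ext1
    · funext x
      simp [RegularWreathProduct.mul_left]
    · simp

/-- images of the generators -/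
noncomputable def wa : W9 := dg fun _ => tr 1
noncomputable def wu' : W9 := dg fun c => sc (EE (Multiplicative.toAdd c))
noncomputable def wt : W9 := RegularWreathProduct.inl (Multiplicative.ofAdd (-1))
noncomputable def we : W9 := dg fun _ => sc (-1)

theorem wt_conj (i : ℤ) (f : C9 → Aff SS) :
    wt ^ i * dg f * wt ^ (-i) = dg fun c => f (c * Multiplicative.ofAdd (i : ZMod 9)) := by
  have h1 : ∀ j : ℤ, wt ^ j = RegularWreathProduct.inl (Multiplicative.ofAdd (-(j : ZMod 9))) := by
    intro j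
    unfold wt
    rw [← map_zpow, ← ofAdd_zsmul]
    congr 2
    simp
  rw [h1, h1]
  ext1
  · funext c
    simp only [RegularWreathProduct.mul_left, RegularWreathProduct.left_inl, dg,
      MonoidHom.coe_mk, OneHom.coe_mk, one_mul, Pi.mul_apply, Pi.one_apply, mul_one,
      RegularWreathProduct.right_inl]
    congr 1
    rw [ofAdd_neg, inv_inv, mul_comm]
  · simp [dg]

theorem ee_w (i : ℤ) : ee wu' wt i = dg fun c => sc (EE (Multiplicative.toAdd c + (i : ZMod 9))) := by
  unfold ee wu'
  rw [wt_conj]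
  rfl

theorem wt_comm_const (x : Aff SS) : Commute wt (dg fun _ => x) := by
  have h1 := wt_conj 1 (fun _ => x)
  rw [zpow_one, zpow_neg, zpow_one] at h1
  exact mul_inv_eq_iff_eq_mul.mp h1

/-- the commutator word of `a` and its conjugate by `c` is trivial -/
def a_comm_word {G : Type*} [Group G] (a c : G) : Prop := a * (c * a * c⁻¹) * a⁻¹ * (c * a * c⁻¹)⁻¹ = 1

theorem conj_dg (f : C9 → SSˣ) (g : C9 → SS) :
    (dg fun c => sc (f c)) * (dg fun c => tr (g c)) * (dg fun c => sc (f c))⁻¹ =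
      dg fun c => tr ((f c : SS) * g c) := by
  rw [← map_inv, ← map_mul, ← map_mul]
  congr 1
  funext c
  simp only [Pi.mul_apply, Pi.inv_apply]
  rw [sc_inv, sc_tr_sc]

theorem words_W9 : ∀ x ∈ words wa wu' wt we, x = 1 := by
  have hE3 : ∀ c : C9, EE (Multiplicative.toAdd c + ((3 : ℤ) : ZMod 9)) =
      EE (Multiplicative.toAdd c + 3) := by intro c; norm_num
  have hd : ∀ f : C9 → Aff SS, (∀ c, f c = 1) → dg f = 1 := by
    intro f hf
    have : f = 1 := funext hf
    rw [this, map_one]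
  have hcomm : ∀ f g : C9 → Aff SS, (∀ c, Commute (f c) (g c)) → Commute (dg f) (dg g) := by
    intro f g h
    apply Commute.map
    exact funext fun c => h c
  have hw : ∀ x y : W9, Commute x y → x * y * x⁻¹ * y⁻¹ = 1 := by
    intro x y h
    rw [h.eq]; group
  have hsc : ∀ m n : SSˣ, Commute (sc m) (sc n) := by
    intro m n
    unfold Commute SemiconjBy
    rw [sc_mul, sc_mul]
    exact congrArg sc (mul_comm m n)
  have htr : ∀ m n : SS, Commute (tr m) (tr n) := by
    intro m n
    unfold Commute SemiconjBy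
    rw [tr_mul, tr_mul]
    exact congrArg tr (add_comm m n)
  have h3 : (3 : SS) = 0 := by
    have : (3 : SS) = HahnSeries.C (3 : Lam) := (map_ofNat (HahnSeries.C) 3).symm
    rw [this, three_eq_zero, map_zero]
  have hcc : ∀ f : C9 → SSˣ, a_comm_word wa (dg fun c => sc (f c)) := by
    intro f
    unfold a_comm_word
    apply hw
    unfold wa
    rw [conj_dg]
    exact hcomm _ _ fun c => htr _ _
  have hee : ∀ i : ℤ, ∃ f : C9 → SSˣ, ee wu' wt i = dg fun c => sc (f c) :=
    fun i => ⟨_, ee_w i⟩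
  have hmm : ∀ f g : C9 → SSˣ, (dg fun c => sc (f c)) * (dg fun c => sc (g c)) =
      dg fun c => sc (f c * g c) := by
    intro f g
    rw [← map_mul]
    congr 1
    funext c
    exact sc_mul _ _
  obtain ⟨f0, hf0⟩ := hee 0
  obtain ⟨f1, hf1⟩ := hee 1
  obtain ⟨f2, hf2⟩ := hee 2
  have huc : ∀ i : ℤ, Commute wu' (ee wu' wt i) := by
    intro i
    rw [ee_w]
    exact hcomm _ _ fun c => hsc _ _
  intro x hx
  simp only [words, List.mem_cons, List.not_mem_nil, or_false] at hx
  rcases hx with rfl | rfl | rfl | rfl | rfl | rfl | rfl | rfl | rfl | rfl | rfl | rfl | rfl |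
    rfl | rfl | rfl | rfl | rfl | rfl
  · unfold wa
    rw [← map_pow]
    apply hd
    intro c
    simp only [Pi.pow_apply]
    rw [pow_succ, pow_two, tr_mul, tr_mul, show (1 + 1 + 1 : SS) = 3 by norm_num, h3, tr_zero]
  · unfold wt
    rw [← map_pow, ← ofAdd_nsmul]
    have : (9 • (-1 : ZMod 9)) = 0 := by decide
    rw [this, ofAdd_zero, map_one]
  · unfold we
    rw [← map_pow]
    apply hd
    intro c
    simp only [Pi.pow_apply]
    rw [pow_two, sc_mul]
    have h : ((-1 : SSˣ) * (-1 : SSˣ)) = 1 := by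
      apply Units.ext
      rw [Units.val_mul, Units.val_neg, Units.val_one]
      ring
    exact (congrArg sc h).trans sc_one
  · apply hw
    exact hcomm _ _ fun c => hsc _ _
  · apply hw
    exact (wt_comm_const _).symm
  · unfold we wa
    rw [← map_inv, ← map_mul, ← map_mul, ← map_mul]
    apply hd
    intro c
    simp only [Pi.mul_apply, Pi.inv_apply]
    rw [sc_inv, sc_tr_sc, tr_mul]
    simp [tr_zero]
  · apply hw
    exact wt_comm_const _
  · exact hw _ _ (huc 1)
  · exact hw _ _ (huc 2)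
  · exact hw _ _ (huc 3)
  · exact hw _ _ (huc 4)
  · rw [mul_inv_eq_one, ee_w]
    unfold wa wu'
    rw [conj_dg, conj_dg, ← map_mul]
    apply congrArg
    funext c
    change tr _ = tr _ * tr _
    rw [tr_mul, hE3, EE_add_three, mul_one, mul_one]
  · rw [hf0]; exact hcc f0
  · rw [hf1]; exact hcc f1
  · rw [hf2]; exact hcc f2
  · rw [hf0, hf1, hmm]; exact hcc _
  · rw [hf0, hf2, hmm]; exact hcc _
  · rw [hf1, hf2, hmm]; exact hcc _
  · rw [hf0, hf1, hf2, hmm, hmm]; exact hcc _

theorem exists_rep : ∃ f : GG →* W9, f ga = wa ∧ f gu = wu' ∧ f gt = wt ∧ f ge = we :=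
  exists_hom _ _ _ _ words_W9

/-- the representation -/
noncomputable def rep : GG →* W9 := exists_rep.choose
theorem rep_ga : rep ga = wa := exists_rep.choose_spec.1
theorem rep_gu : rep gu = wu' := exists_rep.choose_spec.2.1
theorem rep_gt : rep gt = wt := exists_rep.choose_spec.2.2.1
theorem rep_ge : rep ge = we := exists_rep.choose_spec.2.2.2

/-- linear part at `c` -/
noncomputable def mm (g : GG) (c : C9) : SSˣ := ((rep g).left c).m

/-- translation part at `c` -/
noncomputable def rr (g : GG) (c : C9) : SS := ((rep g).left c).r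

/-- the cyclic part -/
noncomputable def kk : GG →* C9 := RegularWreathProduct.rightHom.comp rep

theorem mm_mul (g h : GG) (c : C9) : mm (g * h) c = mm g c * mm h ((kk g)⁻¹ * c) := by
  unfold mm
  rw [map_mul]
  rfl

theorem rr_mul (g h : GG) (c : C9) :
    rr (g * h) c = rr g c + mm g c * rr h ((kk g)⁻¹ * c) := by
  unfold mm rr
  rw [map_mul]
  rfl

theorem mm_one (c : C9) : mm 1 c = 1 := by
  unfold mm
  rw [map_one]
  rfl

theorem rr_one (c : C9) : rr 1 c = 0 := by
  unfold rr
  rw [map_one]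
  rfl

theorem mm_inv (g : GG) (c : C9) : mm g⁻¹ c = (mm g (kk g * c))⁻¹ := by
  unfold mm
  rw [map_inv]
  rfl

theorem rr_inv (g : GG) (c : C9) :
    rr g⁻¹ c = -(((mm g (kk g * c))⁻¹ : SSˣ) * rr g (kk g * c)) := by
  unfold mm rr
  rw [map_inv]
  rfl

theorem mm_ga (c : C9) : mm ga c = 1 := by unfold mm; rw [rep_ga]; rfl
theorem rr_ga (c : C9) : rr ga c = 1 := by unfold rr; rw [rep_ga]; rfl
theorem kk_ga : kk ga = 1 := by unfold kk; rw [MonoidHom.comp_apply, rep_ga]; rfl
theorem mm_gu (c : C9) : mm gu c = EE (Multiplicative.toAdd c) := by unfold mm; rw [rep_gu]; rfl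
theorem rr_gu (c : C9) : rr gu c = 0 := by unfold rr; rw [rep_gu]; rfl
theorem kk_gu : kk gu = 1 := by unfold kk; rw [MonoidHom.comp_apply, rep_gu]; rfl
theorem mm_gt (c : C9) : mm gt c = 1 := by unfold mm; rw [rep_gt]; rfl
theorem rr_gt (c : C9) : rr gt c = 0 := by unfold rr; rw [rep_gt]; rfl
theorem kk_gt : kk gt = Multiplicative.ofAdd (-1) := by
  unfold kk; rw [MonoidHom.comp_apply, rep_gt]; rfl
theorem mm_ge (c : C9) : mm ge c = -1 := by unfold mm; rw [rep_ge]; rfl
theorem rr_ge (c : C9) : rr ge c = 0 := by unfold rr; rw [rep_ge]; rfl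
theorem kk_ge : kk ge = 1 := by unfold kk; rw [MonoidHom.comp_apply, rep_ge]; rfl

/-- the constant coefficient on units -/
noncomputable def cU : Lamˣ →* (ZMod 3)ˣ :=
  Units.map ((MvPowerSeries.constantCoeff : Lam →+* ZMod 3) : Lam →* ZMod 3)

/-- the involution on units -/
noncomputable def sU : Lamˣ →* Lamˣ := Units.map ((star : Lam →+* Lam) : Lam →* Lam)

theorem sU_Zn (i : ℕ) : sU (Zn i) = (Zn i)⁻¹ := star_Zn i

theorem cU_Zn (i : ℕ) : cU (Zn i) = 1 := by
  ext1
  exact const_Zn i

theorem lead (g : GG) : ∀ c : C9, ordH (mm g c) = (chi g)⁻¹ ∧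
    sU (lcU (mm g c)) = (lcU (mm g c))⁻¹ ∧ cU (lcU (mm g c)) = sgn g := by
  induction g using GG_ind with
  | h1 => intro c; simp [mm_one]
  | ha => intro c; simp [mm_ga, chi_ga, sgn_ga]
  | hu =>
    intro c
    rw [mm_gu, ordH_EE, lcU_EE, sU_Zn, cU_Zn, chi_gu, sgn_gu]
    exact ⟨rfl, rfl, rfl⟩
  | ht => intro c; simp [mm_gt, chi_gt, sgn_gt]
  | he =>
    intro c
    rw [mm_ge, ordH_neg_one, lcU_neg_one, chi_ge, sgn_ge]
    refine ⟨by simp, ?_, ?_⟩
    · ext1
      change star ((-1 : Lamˣ) : Lam) = _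
      rw [Units.val_neg, Units.val_one, map_neg, map_one, inv_neg_one, Units.val_neg,
        Units.val_one]
    · ext1
      change MvPowerSeries.constantCoeff ((-1 : Lamˣ) : Lam) = _
      rw [Units.val_neg, Units.val_one, map_neg, map_one, Units.val_neg, Units.val_one]
  | hmul x y hx hy =>
    intro c
    obtain ⟨a1, a2, a3⟩ := hx c
    obtain ⟨b1, b2, b3⟩ := hy ((kk x)⁻¹ * c)
    rw [mm_mul]
    simp only [map_mul]
    rw [a1, a2, a3, b1, b2, b3, mul_inv, mul_inv]
    exact ⟨rfl, rfl, rfl⟩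
  | hinv x hx =>
    intro c
    obtain ⟨a1, a2, a3⟩ := hx (kk x * c)
    rw [mm_inv]
    simp only [map_inv]
    rw [a1, a2, a3]
    exact ⟨rfl, rfl, rfl⟩

end Pool.Agent.Helper688.LPres
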