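import Pool.Agent.Helper688.LPres.Growth
import Pool.Agent.Helper688.LPres.Rep

set_option autoImplicit false

namespace Pool.Agent.Helper688.LPres

open MvPowerSeries

/-- A group of upper triangular matrices of size three. -/
@[ext]
structure Heis where
  p : Lamˣ
  x : Lam
  v : Lam
  hp : sU p = p⁻¹

namespace Heis

theorem star_p (a : Heis) : star (a.p : Lam) = ((a.p⁻¹ : Lamˣ) : Lam) := congrArg Units.val a.hp

theorem p_star (a : Heis) : (a.p : Lam) * star (a.p : Lam) = 1 := by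
  rw [star_p, Units.mul_inv]

noncomputable instance : Mul Heis := ⟨fun a b => ⟨a.p * b.p, a.x + a.p * b.x,
  a.v + b.v + a.x * star (a.p * b.x), by rw [map_mul, a.hp, b.hp, mul_inv]⟩⟩
noncomputable instance : One Heis := ⟨⟨1, 0, 0, by rw [map_one, inv_one]⟩⟩
noncomputable instance : Inv Heis := ⟨fun a => ⟨a.p⁻¹, -((a.p⁻¹ : Lamˣ) * a.x), -a.v + a.x * star a.x,
  by rw [map_inv, a.hp]⟩⟩

theorem mul_p (a b : Heis) : (a * b).p = a.p * b.p := rfl
theorem mul_x (a b : Heis) : (a * b).x = a.x + a.p * b.x := rfl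
theorem mul_v (a b : Heis) : (a * b).v = a.v + b.v + a.x * star (a.p * b.x) := rfl
theorem one_p : (1 : Heis).p = 1 := rfl
theorem one_x : (1 : Heis).x = 0 := rfl
theorem one_v : (1 : Heis).v = 0 := rfl
theorem inv_p (a : Heis) : (a⁻¹).p = a.p⁻¹ := rfl
theorem inv_x (a : Heis) : (a⁻¹).x = -((a.p⁻¹ : Lamˣ) * a.x) := rfl
theorem inv_v (a : Heis) : (a⁻¹).v = -a.v + a.x * star a.x := rfl

noncomputable instance : Group Heis where
  mul_assoc a b c := by
    ext1
    · simp only [mul_p, mul_assoc]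
    · simp only [mul_p, mul_x, Units.val_mul]; ring
    · simp only [mul_v, mul_x, mul_p, Units.val_mul, map_mul, map_add]
      linear_combination (b.x * star (b.p : Lam) * star c.x) * p_star a
  one_mul a := by
    ext1
    · simp only [mul_p, one_p, one_mul]
    · simp only [mul_x, one_x, one_p, Units.val_one]; ring
    · simp only [mul_v, one_x, one_v, one_p, Units.val_one]; ring
  mul_one a := by
    ext1
    · simp only [mul_p, one_p, mul_one]
    · simp only [mul_x, one_x]; ring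
    · simp only [mul_v, one_x, one_v, mul_zero, map_zero]; ring
  inv_mul_cancel a := by
    ext1
    · simp only [mul_p, inv_p, one_p, inv_mul_cancel]
    · simp only [mul_x, inv_p, inv_x, one_x]; ring
    · simp only [mul_v, inv_v, inv_x, inv_p, one_v, map_mul, ← star_p, star_star]
      linear_combination (-(a.x * star a.x)) * p_star a

/-- the projection to the affine group -/
noncomputable def pr : Heis →* Aff Lam where
  toFun a := ⟨a.p, a.x⟩
  map_one' := rfl
  map_mul' _ _ := rfl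

/-- the linear action -/
noncomputable def act (a : Heis) : (Lam × Lam × Lam) →ₗ[ZMod 3] (Lam × Lam × Lam) where
  toFun u := (a.p * u.1 + a.x * u.2.1 + a.v * a.p * u.2.2,
    u.2.1 + star a.x * a.p * u.2.2, a.p * u.2.2)
  map_add' u w := by
    simp only [Prod.fst_add, Prod.snd_add, Prod.mk_add_mk]
    refine Prod.ext ?_ (Prod.ext ?_ ?_)
    · simp only; ring
    · simp only; ring
    · simp only; ring
  map_smul' c u := by
    simp only [Prod.smul_fst, Prod.smul_snd, mul_smul_comm, Prod.smul_mk, smul_add,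
      RingHom.id_apply]

/-- the last column -/
noncomputable def col (a : Heis) : Lam × Lam × Lam := (a.v * a.p, star a.x * a.p, a.p)

theorem col_mul (a b : Heis) : col (a * b) = act a (col b) := by
  unfold col act
  simp only [LinearMap.coe_mk, AddHom.coe_mk, mul_v, mul_p, mul_x, Units.val_mul, map_add, map_mul]
  refine Prod.ext ?_ (Prod.ext ?_ ?_)
  · simp only
    linear_combination (a.x * star b.x * (b.p : Lam)) * p_star a
  · simp only
    linear_combination (star b.x * (b.p : Lam)) * p_star a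
  · rfl

end Heis

/-- power series of order at least `k` -/
noncomputable def OO (k : ℕ) : Submodule (ZMod 3) Lam where
  carrier := {f | (k : ℕ∞) ≤ f.order}
  add_mem' := by
    intro a b ha hb
    exact le_trans (le_min ha hb) min_order_le_add
  zero_mem' := by simp
  smul_mem' := by
    intro c f hf
    exact le_trans hf le_order_smul

theorem mem_OO {k : ℕ} {f : Lam} : f ∈ OO k ↔ (k : ℕ∞) ≤ f.order := Iff.rfl

theorem OO_zero (f : Lam) : f ∈ OO 0 := by rw [mem_OO]; simp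

theorem OO_mul {i j : ℕ} {f g : Lam} (hf : f ∈ OO i) (hg : g ∈ OO j) : f * g ∈ OO (i + j) := by
  rw [mem_OO] at hf hg ⊢
  push_cast
  exact le_trans (add_le_add hf hg) le_order_mul

theorem OO_mul_right {i : ℕ} {f : Lam} (g : Lam) (hf : f ∈ OO i) : g * f ∈ OO i := by
  have := OO_mul (OO_zero g) hf
  rwa [zero_add] at this

theorem OO_mono {i j : ℕ} (h : i ≤ j) {f : Lam} (hf : f ∈ OO j) : f ∈ OO i := by
  rw [mem_OO] at hf ⊢
  exact le_trans (by exact_mod_cast h) hf

theorem OO_one {f : Lam} (h : constantCoeff f = 0) : f ∈ OO 1 := by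
  rw [mem_OO]
  exact_mod_cast one_le_order_iff_constCoeff_eq_zero.mpr h

/-- the filtration -/
noncomputable def UU (i : ℕ) : Submodule (ZMod 3) (Lam × Lam × Lam) :=
  (OO (i - 2)).prod ((OO (i - 1)).prod (OO i))

theorem mem_UU {i : ℕ} {u : Lam × Lam × Lam} :
    u ∈ UU i ↔ u.1 ∈ OO (i - 2) ∧ u.2.1 ∈ OO (i - 1) ∧ u.2.2 ∈ OO i := by
  unfold UU
  rw [Submodule.mem_prod, Submodule.mem_prod]

theorem act_UU (a : Heis) (h : constantCoeff (a.p : Lam) = 1) (i : ℕ) (u : Lam × Lam × Lam)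
    (hu : u ∈ UU i) : Heis.act a u - u ∈ UU (i + 1) := by
  rw [mem_UU] at hu ⊢
  obtain ⟨h1, h2, h3⟩ := hu
  have hp : (a.p : Lam) - 1 ∈ OO 1 := by
    apply OO_one
    rw [map_sub, h, map_one, sub_self]
  refine ⟨?_, ?_, ?_⟩
  · have e1 : (Heis.act a u - u).1 = ((a.p : Lam) - 1) * u.1 + a.x * u.2.1 +
        a.v * a.p * u.2.2 := by
      simp only [Heis.act, LinearMap.coe_mk, AddHom.coe_mk, Prod.fst_sub]; ring
    rw [e1]
    refine Submodule.add_mem _ (Submodule.add_mem _ ?_ ?_) ?_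
    · exact OO_mono (by omega) (OO_mul hp h1)
    · exact OO_mono (by omega) (OO_mul_right _ h2)
    · exact OO_mono (by omega) (OO_mul_right _ h3)
  · have e1 : (Heis.act a u - u).2.1 = star a.x * a.p * u.2.2 := by
      simp only [Heis.act, LinearMap.coe_mk, AddHom.coe_mk, Prod.snd_sub, Prod.fst_sub]; ring
    rw [e1]
    exact OO_mono (by omega) (OO_mul_right _ h3)
  · have e1 : (Heis.act a u - u).2.2 = ((a.p : Lam) - 1) * u.2.2 := by
      simp only [Heis.act, LinearMap.coe_mk, AddHom.coe_mk, Prod.snd_sub]; ring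
    rw [e1]
    exact OO_mono (by omega) (OO_mul hp h3)

section Theta

variable {F : Type*} [Group F] (K : Subgroup F) (φ : K →* Heis)

open MonoidAlgebra

open Classical in
/-- the column map -/
noncomputable def th (y : F) : Lam × Lam × Lam :=
  if h : y ∈ K then Heis.col (φ ⟨y, h⟩) else 0

theorem th_of_mem (y : F) (h : y ∈ K) : th K φ y = Heis.col (φ ⟨y, h⟩) := dif_pos h

theorem th_mul (h : F) (hh : h ∈ K) (y : F) :
    th K φ (h * y) = Heis.act (φ ⟨h, hh⟩) (th K φ y) := by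
  by_cases hy : y ∈ K
  · rw [th_of_mem K φ y hy, th_of_mem K φ _ (mul_mem hh hy), ← Heis.col_mul, ← map_mul]
    rfl
  · have h2 : h * y ∉ K := by
      intro h3
      exact hy ((Subgroup.mul_mem_cancel_left K hh).mp h3)
    rw [th, dif_neg h2, th, dif_neg hy, map_zero]

/-- the linear extension -/
noncomputable def Th : MonoidAlgebra (ZMod 3) F →ₗ[ZMod 3] (Lam × Lam × Lam) :=
  (Finsupp.linearCombination (ZMod 3) (th K φ)) ∘ₗ
    (MonoidAlgebra.coeffLinearEquiv (S := ZMod 3) (M := F) (ZMod 3)).toLinearMap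

theorem Th_of (y : F) : Th K φ (of (ZMod 3) F y) = th K φ y := by
  unfold Th
  simp [of_apply]

theorem Th_mul (h : F) (hh : h ∈ K) (w : MonoidAlgebra (ZMod 3) F) :
    Th K φ (of (ZMod 3) F h * w) = Heis.act (φ ⟨h, hh⟩) (Th K φ w) := by
  induction w using MonoidAlgebra.induction_on with
  | of y => rw [← map_mul, Th_of, Th_of, th_mul K φ h hh]
  | add x y hx hy => rw [mul_add, map_add, map_add, map_add, hx, hy]
  | smul r x hx => rw [mul_smul_comm, map_smul, map_smul, map_smul, hx]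

theorem Th_pow (F₁ : Subgroup F) [F₁.Normal] (hF : F₁ ≤ K)
    (hc : ∀ y : K, constantCoeff ((φ y).p : Lam) = 1) (i : ℕ) :
    ∀ z ∈ KK F₁ ^ i, Th K φ z ∈ UU i := by
  induction i with
  | zero =>
    intro z _
    rw [mem_UU]
    exact ⟨OO_zero _, OO_zero _, OO_zero _⟩
  | succ i ih =>
    intro z hz
    rw [pow_succ'] at hz
    induction hz using Submodule.mul_induction_on' with
    | mem_mul_mem a ha b hb =>
      unfold KK at ha
      induction ha using Submodule.span_induction with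
      | mem a ha =>
        obtain ⟨h, hh, y, rfl⟩ := ha
        have h1 : Th K φ (of (ZMod 3) F y * b) ∈ UU i := by
          rcases i with _ | i
          · rw [mem_UU]
            exact ⟨OO_zero _, OO_zero _, OO_zero _⟩
          · exact ih _ (KK_pow_left F₁ i hb _)
        have h2 := act_UU (φ ⟨h, hF hh⟩) (hc _) i _ h1
        rw [← Th_mul, ← map_sub] at h2
        have e : (of (ZMod 3) F h - 1) * of (ZMod 3) F y * b =
            of (ZMod 3) F h * (of (ZMod 3) F y * b) - of (ZMod 3) F y * b := by noncomm_ring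
        rw [e]
        exact h2
      | zero => rw [zero_mul, map_zero]; exact Submodule.zero_mem _
      | add x y _ _ hx hy => rw [add_mul, map_add]; exact Submodule.add_mem _ hx hy
      | smul c x _ hx => rw [smul_mul_assoc, map_smul]; exact Submodule.smul_mem _ _ hx
    | add x _ y _ hx hy => rw [map_add]; exact Submodule.add_mem _ hx hy

end Theta

/-- Lifting homomorphisms from a free group to the affine group. -/
theorem exists_lift {K : Type} [Group K] [IsFreeGroup K] (g : K →* Aff Lam)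
    (hg : ∀ y, sU (g y).m = ((g y).m)⁻¹) : ∃ φ : K →* Heis, ∀ y, (φ y).p = (g y).m ∧
      (φ y).x = (g y).r := by
  let φ : K →* Heis := IsFreeGroup.lift fun b =>
    ⟨(g (IsFreeGroup.of b)).m, (g (IsFreeGroup.of b)).r, 0, hg _⟩
  have h1 : Heis.pr.comp φ = g := by
    apply IsFreeGroup.ext_hom
    intro b
    change Heis.pr (φ (IsFreeGroup.of b)) = _
    simp only [φ, IsFreeGroup.lift_of]
    rfl
  refine ⟨φ, fun y => ?_⟩
  have h2 := DFunLike.congr_fun h1 y
  exact ⟨congrArg Aff.m h2, congrArg Aff.r h2⟩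

theorem core {m : ℕ} (R Q : Set (FreeGroup (Fin m))) (hR : R.Finite) (hQ : Q.Finite)
    (τ : FreeGroup (Fin m) →* FreeGroup (Fin m)) {S : Type*} [Group S] [Finite S]
    (s : FreeGroup (Fin m) →* S) (ρ : FreeGroup (Fin m) → Lamˣ) (ψ : FreeGroup (Fin m) → Lam)
    (hN : ∀ x ∈ Subgroup.normalClosure (lrels R Q τ), s x = 1 ∧ ρ x = 1 ∧ ψ x = 0)
    (hρ : ∀ x y, s x = 1 → s y = 1 → ρ (x * y) = ρ x * ρ y)
    (hψ : ∀ x y, s x = 1 → s y = 1 → ψ (x * y) = ψ x + ρ x * ψ y)
    (hst : ∀ x, s x = 1 → sU (ρ x) = (ρ x)⁻¹)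
    (hc : ∀ x, s x = 1 → cU (ρ x) = 1)
    (α β : ℕ → ℕ → FreeGroup (Fin m)) (T : Lam) (hT : T ≠ 0)
    (hα : ∀ i j, s (α i j) = 1 ∧ ρ (α i j) = 1)
    (hβ : ∀ i j, s (β i j) = 1 ∧ ρ (β i j) = 1)
    (hαβ : ∀ i j, α i j * β i j * (α i j)⁻¹ * (β i j)⁻¹ ∈
      Subgroup.normalClosure (lrels R Q τ))
    (hval : ∀ i j, ψ (α i j) * star (ψ (β i j)) - ψ (β i j) * star (ψ (α i j)) =
      T * (ww 0 ^ i * ww 1 ^ j)) : False := by
  classical
  -- the homomorphism to the affine group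
  let K : Subgroup (FreeGroup (Fin m)) := s.ker
  have hK : ∀ x, x ∈ K ↔ s x = 1 := fun x => MonoidHom.mem_ker
  have hKn : K.Normal := inferInstance
  let g : K →* Aff Lam := MonoidHom.mk' (fun y => ⟨ρ y, ψ y⟩) (by
    intro a b
    ext1
    · exact hρ _ _ ((hK _).mp a.2) ((hK _).mp b.2)
    · exact hψ _ _ ((hK _).mp a.2) ((hK _).mp b.2))
  obtain ⟨φ, hφ⟩ := exists_lift g (fun y => hst _ ((hK _).mp y.2))
  have hφp : ∀ y : K, (φ y).p = ρ y := fun y => (hφ y).1
  have hφx : ∀ y : K, (φ y).x = ψ y := fun y => (hφ y).2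
  let v : FreeGroup (Fin m) → Lam := fun y => if h : y ∈ K then (φ ⟨y, h⟩).v else 0
  have hv : ∀ (y : FreeGroup (Fin m)) (h : y ∈ K), v y = (φ ⟨y, h⟩).v := fun y h => dif_pos h
  have hNK : ∀ x ∈ Subgroup.normalClosure (lrels R Q τ), x ∈ K :=
    fun x hx => (hK x).mpr (hN x hx).1
  have hNφ : ∀ x (hx : x ∈ Subgroup.normalClosure (lrels R Q τ)),
      (φ ⟨x, hNK x hx⟩).p = 1 ∧ (φ ⟨x, hNK x hx⟩).x = 0 := by
    intro x hx
    rw [hφp, hφx]
    exact ⟨(hN x hx).2.1, (hN x hx).2.2⟩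
  have hadd : ∀ x ∈ Subgroup.normalClosure (lrels R Q τ),
      ∀ y ∈ Subgroup.normalClosure (lrels R Q τ), v (x * y) = v x + v y := by
    intro x hx y hy
    rw [hv _ (hNK _ (mul_mem hx hy)), hv _ (hNK _ hx), hv _ (hNK _ hy)]
    have e1 : (⟨x * y, hNK _ (mul_mem hx hy)⟩ : K) = ⟨x, hNK _ hx⟩ * ⟨y, hNK _ hy⟩ := rfl
    rw [e1, map_mul, Heis.mul_v, (hNφ x hx).2, zero_mul, add_zero]
  have hconj : ∀ y, s y = 1 → ∀ x ∈ Subgroup.normalClosure (lrels R Q τ),
      v (y * x * y⁻¹) = v x := by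
    intro y hy x hx
    have hy' : y ∈ K := (hK y).mpr hy
    have hcx := hKn.conj_mem x (hNK x hx) y
    rw [hv _ hcx, hv _ (hNK _ hx)]
    have e1 : (⟨y * x * y⁻¹, hcx⟩ : K) = ⟨y, hy'⟩ * ⟨x, hNK _ hx⟩ * ⟨y, hy'⟩⁻¹ := rfl
    rw [e1, map_mul, map_mul, map_inv]
    have h2 := hNφ x hx
    generalize φ ⟨x, hNK _ hx⟩ = b at h2 ⊢
    generalize φ ⟨y, hy'⟩ = a
    have h3 : a * b * a⁻¹ = ⟨1, 0, b.v, by rw [map_one, inv_one]⟩ := by
      ext1
      · simp only [Heis.mul_p, Heis.inv_p, h2.1, mul_one, mul_inv_cancel]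
      · simp only [Heis.mul_x, Heis.mul_p, Heis.inv_x, h2.1, h2.2, mul_one, mul_zero, add_zero]
        rw [mul_neg, ← mul_assoc, Units.mul_inv, one_mul, add_neg_cancel]
      · simp only [Heis.mul_v, Heis.mul_x, Heis.mul_p, Heis.inv_v, Heis.inv_x, h2.1, h2.2,
          mul_one, mul_zero, map_zero, add_zero]
        rw [mul_neg, ← mul_assoc, Units.mul_inv, one_mul, map_neg]
        ring
    rw [h3]
  have hcong : ∀ i, ∀ x ∈ Subgroup.normalClosure (lrels R Q τ),
      ∀ y ∈ Subgroup.normalClosure (lrels R Q τ),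
      MonoidAlgebra.of (ZMod 3) _ x - MonoidAlgebra.of (ZMod 3) _ y ∈
        KK (verb (FreeGroup (Fin m)) S) ^ i → v x - v y ∈ II i := by
    intro i x hx y hy hxy
    have hF : verb (FreeGroup (Fin m)) S ≤ K := verb_le s
    have hnorm : (verb (FreeGroup (Fin m)) S).Normal := verb_normal _ S
    have h1 := Th_pow K φ (verb (FreeGroup (Fin m)) S) hF
      (fun y => by
        rw [hφp]
        exact congrArg Units.val (hc _ ((hK _).mp y.2))) i _ hxy
    rw [map_sub, Th_of, Th_of, th_of_mem K φ x (hNK x hx), th_of_mem K φ y (hNK y hy),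
      mem_UU] at h1
    have h2 := h1.1
    simp only [Heis.col, Prod.fst_sub, (hNφ x hx).1, (hNφ y hy).1, Units.val_one, mul_one] at h2
    rw [hv _ (hNK _ hx), hv _ (hNK _ hy)]
    exact h2
  obtain ⟨C, hC⟩ := growth R Q hR hQ τ s v II hadd hconj hcong
  apply lower_bound T hT {x | ∃ i j, x = T * (ww 0 ^ i * ww 1 ^ j)} (fun i j => ⟨i, j, rfl⟩) C
  intro e
  obtain ⟨X, hX1, hX2⟩ := hC e
  refine ⟨X, hX1, ?_⟩
  rintro _ ⟨i, j, rfl⟩
  have h1 := hX2 _ (hαβ i j)
  have h2 : v (α i j * β i j * (α i j)⁻¹ * (β i j)⁻¹) = T * (ww 0 ^ i * ww 1 ^ j) := by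
    have ha : α i j ∈ K := (hK _).mpr (hα i j).1
    have hb : β i j ∈ K := (hK _).mpr (hβ i j).1
    have e1 : (φ ⟨α i j, ha⟩).p = 1 := by rw [hφp]; exact (hα i j).2
    have e2 : (φ ⟨β i j, hb⟩).p = 1 := by rw [hφp]; exact (hβ i j).2
    have e3 : (φ ⟨α i j, ha⟩).x = ψ (α i j) := hφx _
    have e4 : (φ ⟨β i j, hb⟩).x = ψ (β i j) := hφx _
    rw [← hval, hv _ (hNK _ (hαβ i j))]
    have e5 : (⟨α i j * β i j * (α i j)⁻¹ * (β i j)⁻¹, hNK _ (hαβ i j)⟩ : K) =
        ⟨α i j, ha⟩ * ⟨β i j, hb⟩ * ⟨α i j, ha⟩⁻¹ * ⟨β i j, hb⟩⁻¹ := rfl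
    rw [e5, map_mul, map_mul, map_mul, map_inv, map_inv]
    generalize φ ⟨α i j, ha⟩ = a at e1 e3 ⊢
    generalize φ ⟨β i j, hb⟩ = b at e2 e4 ⊢
    rw [← e3, ← e4]
    simp only [Heis.mul_v, Heis.mul_x, Heis.mul_p, Heis.inv_v, Heis.inv_x, Heis.inv_p, e1, e2,
      mul_one, inv_one, Units.val_one, one_mul, map_neg]
    ring
  rw [← h2]
  exact h1

end Pool.Agent.Helper688.LPres
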