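import Pool.Agent.Helper688.LPres.Coeff

set_option autoImplicit false

namespace Pool.Agent.Helper688.LPres

/-- Laurent series in one more variable -/
abbrev SS := HahnSeries ℤ Lam

/-- coefficients vanish below `n` -/
def Van (n : ℤ) (x : SS) : Prop := ∀ k < n, x.coeff k = 0

theorem Van.zero (n : ℤ) : Van n 0 := fun _ _ => rfl

theorem Van.add {n : ℤ} {x y : SS} (hx : Van n x) (hy : Van n y) : Van n (x + y) := by
  intro k hk
  rw [HahnSeries.coeff_add, hx k hk, hy k hk, add_zero]

theorem Van.neg {n : ℤ} {x : SS} (hx : Van n x) : Van n (-x) := by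
  intro k hk
  rw [HahnSeries.coeff_neg, hx k hk, neg_zero]

theorem Van.mono {m n : ℤ} (h : m ≤ n) {x : SS} (hx : Van n x) : Van m x :=
  fun k hk => hx k (lt_of_lt_of_le hk h)

theorem Van.mul {m n : ℤ} {x y : SS} (hx : Van m x) (hy : Van n y) : Van (m + n) (x * y) := by
  intro k hk
  rw [HahnSeries.coeff_mul]
  apply Finset.sum_eq_zero
  intro ij hij
  have h1 := (Finset.mem_antidiagonal.mp hij).2.2
  by_cases h : ij.1 < m
  · rw [hx _ h, zero_mul]
  · rw [hy ij.2 (by omega), mul_zero]

theorem coeff_mul_van {m n : ℤ} {x y : SS} (hx : Van m x) (hy : Van n y) :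
    (x * y).coeff (m + n) = x.coeff m * y.coeff n := by
  rw [HahnSeries.coeff_mul, Finset.sum_eq_single (m, n)]
  · intro ij hij hne
    have h1 := (Finset.mem_antidiagonal.mp hij).2.2
    by_cases h : ij.1 < m
    · rw [hx _ h, zero_mul]
    · by_cases h' : ij.2 < n
      · rw [hy _ h', mul_zero]
      · exfalso
        apply hne
        apply Prod.ext
        · simp only; omega
        · simp only; omega
  · intro hnot
    rw [Finset.mem_antidiagonal] at hnot
    by_cases h : x.coeff m = 0
    · simp only [h, zero_mul]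
    · by_cases h' : y.coeff n = 0
      · simp only [h', mul_zero]
      · exact absurd ⟨h, h', rfl⟩ hnot

theorem van_order (x : SS) : Van x.order x := fun _ hk => HahnSeries.coeff_eq_zero_of_lt_order hk

theorem order_eq_of {x : SS} {n : ℤ} (h1 : Van n x) (h2 : x.coeff n ≠ 0) : x.order = n := by
  apply le_antisymm (HahnSeries.order_le_of_coeff_ne_zero h2)
  by_contra h
  rw [not_le] at h
  have h3 : x.coeff x.order = 0 := h1 _ h
  rw [HahnSeries.coeff_order_eq_zero] at h3
  rw [h3] at h2
  exact h2 rfl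

instance : Nontrivial SS := inferInstance

/-- the order of a unit -/
noncomputable def ordH : SSˣ →* Multiplicative ℤ where
  toFun x := Multiplicative.ofAdd (x : SS).order
  map_one' := by simp
  map_mul' x y := by
    rw [Units.val_mul, HahnSeries.order_mul x.ne_zero y.ne_zero, ofAdd_add]

/-- the leading coefficient of a unit -/
noncomputable def lcH : SS →* Lam where
  toFun x := x.leadingCoeff
  map_one' := by simp
  map_mul' x y := HahnSeries.leadingCoeff_mul x y

/-- the leading coefficient of a unit -/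
noncomputable def lcU : SSˣ →* Lamˣ := Units.map lcH

theorem lcU_val (x : SSˣ) : (lcU x : Lam) = (x : SS).leadingCoeff := rfl

theorem lcU_coeff (x : SSˣ) : (lcU x : Lam) = (x : SS).coeff (x : SS).order := by
  rw [lcU_val, HahnSeries.leadingCoeff_eq]

/-- the three leading coefficients -/
noncomputable def Zn (i : ℕ) : Lamˣ := if i = 1 then zU 0 else if i = 2 then zU 1 else 1

theorem star_Zn (i : ℕ) : Units.map (star : Lam →* Lam) (Zn i) = (Zn i)⁻¹ := by
  unfold Zn
  split_ifs
  · exact star_zU 0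
  · exact star_zU 1
  · simp

theorem const_Zn (i : ℕ) : MvPowerSeries.constantCoeff (Zn i : Lam) = 1 := by
  unfold Zn
  split_ifs
  · exact constantCoeff_z 0
  · exact constantCoeff_z 1
  · simp

theorem E_unit (z : Lamˣ) (b : Lam) :
    IsUnit (HahnSeries.single (-1 : ℤ) (z : Lam) + HahnSeries.single (0 : ℤ) b : SS) := by
  have h1 : (HahnSeries.single (-1 : ℤ) (z : Lam) + HahnSeries.single (0 : ℤ) b : SS) =
      HahnSeries.single (-1 : ℤ) (z : Lam) *
        (1 + HahnSeries.single (1 : ℤ) (((z⁻¹ : Lamˣ) : Lam) * b)) := by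
    rw [mul_add, mul_one, HahnSeries.single_mul_single, ← mul_assoc, Units.mul_inv, one_mul]
    norm_num
  rw [h1]
  apply IsUnit.mul
  · apply IsUnit.of_mul_eq_one (HahnSeries.single (1 : ℤ) ((z⁻¹ : Lamˣ) : Lam))
    rw [HahnSeries.single_mul_single, Units.mul_inv]
    norm_num
  · have h2 : (1 + HahnSeries.single (1 : ℤ) (((z⁻¹ : Lamˣ) : Lam) * b) : SS) =
        HahnSeries.ofPowerSeries ℤ Lam (1 + PowerSeries.X *
          PowerSeries.C (((z⁻¹ : Lamˣ) : Lam) * b)) := by
      rw [(HahnSeries.ofPowerSeries ℤ Lam).map_add, (HahnSeries.ofPowerSeries ℤ Lam).map_one,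
        (HahnSeries.ofPowerSeries ℤ Lam).map_mul, HahnSeries.ofPowerSeries_X,
        HahnSeries.ofPowerSeries_C, HahnSeries.C_apply, HahnSeries.single_mul_single, one_mul,
        add_zero]
    rw [h2]
    apply IsUnit.map
    rw [PowerSeries.isUnit_iff_constantCoeff]
    simp

/-- the nine units -/
noncomputable def EE (c : ZMod 9) : SSˣ :=
  (E_unit (Zn (c.val % 3)) (algebraMap (ZMod 3) Lam ((c.val / 3 : ℕ) : ZMod 3))).unit

theorem EE_val (c : ZMod 9) : (EE c : SS) = HahnSeries.single (-1 : ℤ) (Zn (c.val % 3) : Lam) +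
    HahnSeries.single (0 : ℤ) (algebraMap (ZMod 3) Lam ((c.val / 3 : ℕ) : ZMod 3)) := rfl

theorem EE_add_three (c : ZMod 9) : (EE (c + 3) : SS) = EE c + 1 := by
  have h1 : ∀ c : ZMod 9, (c + 3).val % 3 = c.val % 3 := by decide
  have h2 : ∀ c : ZMod 9, (((c + 3).val / 3 : ℕ) : ZMod 3) = ((c.val / 3 : ℕ) : ZMod 3) + 1 := by
    decide
  rw [EE_val, EE_val, h1, h2, (algebraMap (ZMod 3) Lam).map_add, (algebraMap (ZMod 3) Lam).map_one,
    ← HahnSeries.C_apply, ← HahnSeries.C_apply, (HahnSeries.C).map_add, (HahnSeries.C).map_one,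
    ← add_assoc]

theorem EE_van (c : ZMod 9) : Van (-1) (EE c : SS) := by
  intro k hk
  rw [EE_val, HahnSeries.coeff_add, HahnSeries.coeff_single_of_ne (by omega),
    HahnSeries.coeff_single_of_ne (by omega), add_zero]

theorem EE_coeff (c : ZMod 9) : (EE c : SS).coeff (-1) = Zn (c.val % 3) := by
  rw [EE_val, HahnSeries.coeff_add, HahnSeries.coeff_single_same,
    HahnSeries.coeff_single_of_ne (by omega), add_zero]

theorem EE_order (c : ZMod 9) : (EE c : SS).order = -1 := by
  apply order_eq_of (EE_van c)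
  rw [EE_coeff]
  exact Units.ne_zero _

theorem ordH_EE (c : ZMod 9) : ordH (EE c) = Multiplicative.ofAdd (-1) := by
  change Multiplicative.ofAdd (EE c : SS).order = _
  rw [EE_order]

theorem lcU_EE (c : ZMod 9) : lcU (EE c) = Zn (c.val % 3) := by
  ext1
  rw [lcU_coeff, EE_order, EE_coeff]

theorem neg_one_order : ((-1 : SSˣ) : SS).order = 0 := by
  rw [Units.val_neg, Units.val_one, HahnSeries.order_neg, HahnSeries.order_one]

theorem ordH_neg_one : ordH (-1) = 1 := by
  change Multiplicative.ofAdd ((-1 : SSˣ) : SS).order = _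
  rw [neg_one_order]; rfl

theorem lcU_neg_one : lcU (-1) = -1 := by
  ext1
  rw [lcU_coeff, neg_one_order, Units.val_neg, Units.val_one, HahnSeries.coeff_neg,
    HahnSeries.coeff_one, if_pos rfl, Units.val_neg, Units.val_one]

end Pool.Agent.Helper688.LPres
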