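import Pool.Agent.Helper688.LPres.Heis
import Pool.Agent.Helper688.LPres.Ascend

set_option autoImplicit false
set_option maxHeartbeats 1000000

namespace Pool.Agent.Helper688.LPres

theorem kk_pow_nine (g : GG) (n : ℕ) : kk (g ^ (9 * n)) = 1 := by
  rw [map_pow, pow_mul]
  have h : ∀ x : C9, x ^ 9 = 1 := by
    intro x
    apply Multiplicative.toAdd.injective
    rw [toAdd_pow, toAdd_one]
    generalize Multiplicative.toAdd x = y
    revert y
    decide
  rw [h, one_pow]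

theorem mm_conj (g y : GG) (c : C9) (hg : kk g = 1) (hy : kk y = 1) :
    mm (g * y * g⁻¹) c = mm y c := by
  rw [mm_mul, mm_mul, mm_inv]
  simp only [map_mul, hg, hy, inv_one, one_mul, mul_one]
  rw [mul_comm (mm g c), mul_inv_cancel_right]

theorem tf (x : Multiplicative ℤ) (n : ℕ) (hn : n ≠ 0) (h : x ^ n = 1) : x = 1 := by
  apply Multiplicative.toAdd.injective
  have h1 := congrArg Multiplicative.toAdd h
  rw [toAdd_pow, toAdd_one, smul_eq_zero] at h1
  rcases h1 with h1 | h1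
  · exact absurd h1 hn
  · rw [h1, toAdd_one]

theorem chi_eq (χ : GG →* Multiplicative ℤ) (g : GG) :
    χ g = (χ gu) ^ (Multiplicative.toAdd (chi g)) := by
  induction g using GG_ind with
  | h1 => simp
  | ha =>
    rw [chi_ga, toAdd_one, zpow_zero]
    apply tf _ 3 (by norm_num)
    rw [← map_pow, ga_cube, map_one]
  | hu => rw [chi_gu, toAdd_ofAdd, zpow_one]
  | ht =>
    rw [chi_gt, toAdd_one, zpow_zero]
    apply tf _ 9 (by norm_num)
    rw [← map_pow, base_GG.th9, map_one]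
  | he =>
    rw [chi_ge, toAdd_one, zpow_zero]
    apply tf _ 2 (by norm_num)
    rw [← map_pow, ge_sq, map_one]
  | hmul x y hx hy => rw [map_mul, map_mul, toAdd_mul, zpow_add, ← hx, ← hy]
  | hinv x hx => rw [map_inv, map_inv, toAdd_inv, zpow_neg, ← hx]

theorem nc_props (g : GG) (hg : g ∈ Subgroup.normalClosure ({ga} : Set GG)) :
    kk g = 1 ∧ sgn g = 1 ∧ ∀ c, mm g c = 1 := by
  have hx' : g ∈ Subgroup.closure (Group.conjugatesOfSet ({ga} : Set GG)) := hg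
  clear hg
  induction hx' using Subgroup.closure_induction with
  | mem x hx =>
    rw [Group.mem_conjugatesOfSet_iff] at hx
    obtain ⟨r, hr, hrx⟩ := hx
    rw [isConj_iff] at hrx
    obtain ⟨y, rfl⟩ := hrx
    rw [Set.mem_singleton_iff] at hr
    subst hr
    refine ⟨?_, ?_, ?_⟩
    · rw [map_mul, map_mul, map_inv, kk_ga, mul_one, mul_inv_cancel]
    · rw [map_mul, map_mul, map_inv, sgn_ga, mul_one, mul_inv_cancel]
    · intro c
      rw [mm_mul, mm_mul, mm_inv, mm_ga, mul_one, map_mul, kk_ga, mul_one, mul_inv_cancel_left,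
        mul_inv_cancel]
  | one => exact ⟨map_one _, map_one _, mm_one⟩
  | mul x y _ _ hx hy =>
    obtain ⟨h1, h2, h3⟩ := hx
    obtain ⟨h4, h5, h6⟩ := hy
    refine ⟨by rw [map_mul, h1, h4, one_mul], by rw [map_mul, h2, h5, one_mul], ?_⟩
    intro c
    rw [mm_mul, h3, h6, one_mul]
  | inv x _ hx =>
    obtain ⟨h1, h2, h3⟩ := hx
    refine ⟨by rw [map_inv, h1, inv_one], by rw [map_inv, h2, inv_one], ?_⟩
    intro c
    rw [mm_inv, h3, inv_one]

theorem ord_zero (g : GG) (hg : chi g = 1) (c : C9) : (mm g c : SS).order = 0 := by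
  have h := (lead g c).1
  rw [hg, inv_one] at h
  have h1 := congrArg Multiplicative.toAdd h
  exact h1

theorem van_mm (g : GG) (hg : chi g = 1) (c : C9) : Van 0 (mm g c : SS) := by
  have h := van_order (mm g c : SS)
  rwa [ord_zero g hg c] at h

theorem lc_coeff (g : GG) (hg : chi g = 1) (c : C9) :
    (mm g c : SS).coeff 0 = (lcU (mm g c) : Lam) := by
  rw [lcU_coeff, ord_zero g hg c]

theorem mm_ee (i : ℤ) (c : C9) : mm (ee gu gt i) c = EE (Multiplicative.toAdd c + (i : ZMod 9)) := by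
  unfold mm
  rw [map_ee, rep_gu, rep_gt, ee_w]
  rfl

theorem kk_ee (i : ℤ) : kk (ee gu gt i) = 1 := by
  rw [map_ee, kk_gu]
  unfold ee
  rw [mul_one, zpow_neg, mul_inv_cancel]

theorem sgn_ee (i : ℤ) : sgn (ee gu gt i) = 1 := by
  rw [map_ee, sgn_gu, sgn_gt]
  simp [ee]

theorem chi_ee (i : ℤ) : chi (ee gu gt i) = Multiplicative.ofAdd 1 := by
  rw [map_ee, chi_gu, chi_gt]
  simp [ee]

/-- the elements of character zero -/
noncomputable def yy (i : ℤ) : GG := ee gu gt i * gu⁻¹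

theorem chi_yy (i : ℤ) : chi (yy i) = 1 := by
  unfold yy
  rw [map_mul, map_inv, chi_ee, chi_gu, mul_inv_cancel]

theorem kk_yy (i : ℤ) : kk (yy i) = 1 := by
  unfold yy
  rw [map_mul, map_inv, kk_ee, kk_gu, inv_one, mul_one]

theorem sgn_yy (i : ℤ) : sgn (yy i) = 1 := by
  unfold yy
  rw [map_mul, map_inv, sgn_ee, sgn_gu, inv_one, mul_one]

theorem lc_yy (i : ℤ) : lcU (mm (yy i) 1) = Zn ((i : ZMod 9).val % 3) := by
  unfold yy
  rw [mm_mul, mm_inv, mm_ee, kk_ee, kk_gu, mm_gu, inv_one, one_mul, one_mul, map_mul, map_inv,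
    lcU_EE, lcU_EE]
  have h1 : (Multiplicative.toAdd (1 : C9)) = 0 := rfl
  rw [h1, zero_add]
  have h2 : Zn ((0 : ZMod 9).val % 3) = 1 := by
    have : (0 : ZMod 9).val % 3 = 0 := by decide
    rw [this]
    simp [Zn]
  rw [h2, inv_one, mul_one]

theorem lc_yy_one : lcU (mm (yy 1) 1) = zU 0 := by
  rw [lc_yy]
  have : ((1 : ℤ) : ZMod 9).val % 3 = 1 := by decide
  rw [this]
  simp [Zn]

theorem lc_yy_two : lcU (mm (yy 2) 1) = zU 1 := by
  rw [lc_yy]
  have : ((2 : ℤ) : ZMod 9).val % 3 = 2 := by decide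
  rw [this]
  simp [Zn]

theorem neg_one_inv : ((((-1 : SSˣ))⁻¹ : SSˣ) : SS) = -1 := by
  have h : ((-1 : SSˣ)) * (-1 : SSˣ) = 1 := by
    apply Units.ext
    rw [Units.val_mul, Units.val_neg, Units.val_one]
    ring
  rw [inv_eq_of_mul_eq_one_right h, Units.val_neg, Units.val_one]

theorem T_ne_zero (h : Lam) (hh : h ≠ 0) :
    h * star h * ((zU 0 : Lam) - ((zU 0)⁻¹ : Lamˣ)) ≠ 0 := by
  refine mul_ne_zero (mul_ne_zero hh (star_ne_zero hh)) ?_
  intro hz
  rw [sub_eq_zero] at hz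
  have h1 : (zU 0 : Lam) * (zU 0 : Lam) = 1 := by
    nth_rewrite 2 [hz]
    rw [Units.mul_inv]
  have h2 : ((zU 0 : Lam) - 1) * ((zU 0 : Lam) + 1) = 0 := by
    linear_combination h1
  rcases mul_eq_zero.mp h2 with h3 | h3
  · have h4 : zU 0 = 1 := Units.ext (by rw [Units.val_one]; exact sub_eq_zero.mp h3)
    unfold zU at h4
    have h5 : pU 0 = qU 0 := mul_inv_eq_one.mp h4
    have h6 := congrArg Units.val h5
    rw [pU_val, qU_val] at h6
    have h7 : (2 : Lam) * MvPowerSeries.X 0 = 0 := by linear_combination h6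
    have h8 : (MvPowerSeries.X 0 : Lam) = 0 := by
      linear_combination (2 : Lam) * h7 - (MvPowerSeries.X 0 : Lam) * three_eq_zero
    have h9 := congrArg (MvPowerSeries.coeff (Finsupp.single (0 : Fin 2) 1)) h8
    rw [MvPowerSeries.coeff_index_single_self_X, map_zero] at h9
    exact absurd h9 (by decide)
  · have h4 := congrArg MvPowerSeries.constantCoeff h3
    rw [map_add, constantCoeff_z, map_one, map_zero] at h4
    exact absurd h4 (by decide)

theorem main_contra {m : ℕ} (R Q : Set (FreeGroup (Fin m))) (hR : R.Finite) (hQ : Q.Finite)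
    (τ : FreeGroup (Fin m) →* FreeGroup (Fin m)) (f : FreeGroup (Fin m) →* GG) (s : GG)
    (χ : GG →* Multiplicative ℤ)
    (hker : ∀ x, f x = 1 ↔ x ∈ Subgroup.normalClosure (lrels R Q τ))
    (hχf : ∀ x, χ (f x) = 1) (hχs : χ s ≠ 1)
    (hup : ∀ y : GG, χ y = 1 → ∃ i : ℕ, ∀ n : ℕ, i ≤ n → ∃ x, s ^ n * y * (s ^ n)⁻¹ = f x) :
    False := by
  -- the character
  have hu : χ gu ≠ 1 := by
    intro h
    apply hχs
    rw [chi_eq χ s, h, one_zpow]
  have hchi : ∀ x, chi (f x) = 1 := by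
    intro x
    have h1 := hχf x
    rw [chi_eq χ (f x)] at h1
    apply Multiplicative.toAdd.injective
    have h2 := congrArg Multiplicative.toAdd h1
    rw [toAdd_zpow, toAdd_one, smul_eq_zero] at h2
    rcases h2 with h2 | h2
    · rw [h2, toAdd_one]
    · exfalso
      apply hu
      apply Multiplicative.toAdd.injective
      rw [h2, toAdd_one]
  have hup' : ∀ y : GG, chi y = 1 → ∃ i : ℕ, ∀ n : ℕ, i ≤ n →
      ∃ x, s ^ n * y * (s ^ n)⁻¹ = f x := by
    intro y hy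
    apply hup
    rw [chi_eq χ y, hy, toAdd_one, zpow_zero]
  obtain ⟨i1, hi1⟩ := hup' (yy 1) (chi_yy 1)
  obtain ⟨i2, hi2⟩ := hup' (yy 2) (chi_yy 2)
  obtain ⟨i3, hi3⟩ := hup' ge chi_ge
  obtain ⟨i4, hi4⟩ := hup' ga chi_ga
  set σ : GG := s ^ (9 * (i1 + i2 + i3 + i4)) with hσ
  have hkσ : kk σ = 1 := kk_pow_nine _ _
  obtain ⟨x1, hx1⟩ := hi1 (9 * (i1 + i2 + i3 + i4)) (by omega)
  obtain ⟨x2, hx2⟩ := hi2 (9 * (i1 + i2 + i3 + i4)) (by omega)
  obtain ⟨x3, hx3⟩ := hi3 (9 * (i1 + i2 + i3 + i4)) (by omega)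
  obtain ⟨x4, hx4⟩ := hi4 (9 * (i1 + i2 + i3 + i4)) (by omega)
  rw [← hσ] at hx1 hx2 hx3 hx4
  clear_value σ
  set A := Subgroup.normalClosure ({ga} : Set GG) with hA
  have hAn : A.Normal := Subgroup.normalClosure_normal
  have hgaA : ga ∈ A := Subgroup.subset_normalClosure (Set.mem_singleton _)
  have hx4A : f x4 ∈ A := by
    rw [← hx4]
    exact hAn.conj_mem _ hgaA _
  have hrx4 : rr (f x4) 1 ≠ 0 := by
    rw [← hx4, rr_mul, rr_mul, rr_inv, mm_mul, mm_ga, rr_ga, map_mul, hkσ, kk_ga]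
    simp only [inv_one, mul_one]
    have e1 : rr σ 1 + (mm σ 1 : SS) + (mm σ 1 : SS) * -(((mm σ 1)⁻¹ : SSˣ) * rr σ 1) =
        (mm σ 1 : SS) := by
      have e0 : (mm σ 1 : SS) * ((mm σ 1)⁻¹ : SSˣ) = 1 := Units.mul_inv _
      linear_combination (-(rr σ 1)) * e0
    rw [e1]
    exact Units.ne_zero _
  -- uniform lower bound
  obtain ⟨b, hb⟩ : ∃ b : ℤ, ∀ x : FreeGroup (Fin m), ∀ c, Van b (rr (f x) c) := by
    obtain ⟨b, hb⟩ := (Set.finite_range
      (fun p : Fin m × C9 => (rr (f (FreeGroup.of p.1)) p.2).order)).bddBelow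
    refine ⟨b, ?_⟩
    have hinvc : ∀ x : FreeGroup (Fin m), (∀ c, Van b (rr (f x) c)) →
        ∀ c, Van b (rr (f x⁻¹) c) := by
      intro x hx c
      rw [map_inv, rr_inv, ← mm_inv]
      apply Van.neg
      have h1 := Van.mul (van_mm (f x)⁻¹ (by rw [map_inv, hchi, inv_one]) c) (hx (kk (f x) * c))
      rwa [zero_add] at h1
    intro x
    induction x using FreeGroup.induction_on with
    | C1 => intro c; rw [map_one, rr_one]; exact Van.zero _
    | of i => intro c; exact Van.mono (hb ⟨(i, c), rfl⟩) (van_order _)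
    | inv_of i h => exact hinvc _ h
    | mul x y hx hy =>
      intro c
      rw [map_mul, rr_mul]
      apply Van.add (hx c)
      have h1 := Van.mul (van_mm (f x) (hchi x) c) (hy ((kk (f x))⁻¹ * c))
      rwa [zero_add] at h1
  -- the least order
  obtain ⟨n0, ⟨g0, hg0A, hg0⟩, hmin⟩ : ∃ n0 : ℤ, (∃ g, f g ∈ A ∧ (rr (f g) 1).coeff n0 ≠ 0) ∧
      ∀ g, f g ∈ A → Van n0 (rr (f g) 1) := by
    have hne : ∃ z : ℤ, ∃ g, f g ∈ A ∧ (rr (f g) 1).coeff z ≠ 0 := by
      obtain ⟨z, hz⟩ := Function.ne_iff.mp (fun h => hrx4 (HahnSeries.coeff_injective h))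
      exact ⟨z, x4, hx4A, hz⟩
    have hbd : ∀ z : ℤ, (∃ g, f g ∈ A ∧ (rr (f g) 1).coeff z ≠ 0) → b ≤ z := by
      rintro z ⟨g, _, hg⟩
      by_contra hlt
      rw [not_le] at hlt
      exact hg (hb g 1 z hlt)
    obtain ⟨n0, h1, h2⟩ := Int.exists_least_of_bdd ⟨b, hbd⟩ hne
    refine ⟨n0, h1, ?_⟩
    intro g hg k hk
    by_contra hcon
    have := h2 k ⟨g, hg, hcon⟩
    omega
  -- the central element
  set cst : SS := rr (f x3) 1 with hcst
  have hmx3 : ∀ c, mm (f x3) c = -1 := by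
    intro c
    rw [← hx3, mm_conj _ _ _ hkσ kk_ge, mm_ge]
  have hkx3 : kk (f x3) = 1 := by
    rw [← hx3, map_mul, map_mul, map_inv, hkσ, kk_ge]; simp
  have hcomA : ∀ g : GG, g * f x3 * g⁻¹ * (f x3)⁻¹ ∈ A := by
    intro g
    have h1 : ∀ h : GG, h * ge * h⁻¹ * ge⁻¹ ∈ A := GG_comm_eps
    have h2 : g * f x3 * g⁻¹ * (f x3)⁻¹ = ((g * σ) * ge * (g * σ)⁻¹ * ge⁻¹) *
        (σ * ge * σ⁻¹ * ge⁻¹)⁻¹ := by
      rw [← hx3]; group
    rw [h2]
    exact mul_mem (h1 _) (inv_mem (h1 _))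
  -- the corrected translation part
  let r' : GG → SS := fun g => rr g 1 + (1 - (mm g 1 : SS)) * cst
  have hr' : ∀ x, kk (f x) = 1 → Van n0 (r' (f x)) := by
    intro x hx
    have h1 := hmin (x * x3 * x⁻¹ * x3⁻¹) (by
      rw [map_mul, map_mul, map_mul, map_inv, map_inv]
      exact hcomA _)
    have h2 : rr (f (x * x3 * x⁻¹ * x3⁻¹)) 1 = -r' (f x) := by
      rw [map_mul, map_mul, map_mul, map_inv, map_inv]
      simp only [rr_mul, rr_inv, mm_mul, mm_inv, map_mul, map_inv, hx, hkx3, inv_one,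
        mul_one, hmx3]
      rw [← hcst]
      simp only [neg_one_inv, Units.val_neg, Units.val_one, Units.val_mul]
      have e0 : (mm (f x) 1 : SS) * ((mm (f x) 1)⁻¹ : SSˣ) = 1 := Units.mul_inv _
      have e3 : (3 : SS) = 0 := by
        have : (3 : SS) = HahnSeries.C (3 : Lam) := (map_ofNat (HahnSeries.C) 3).symm
        rw [this, three_eq_zero, map_zero]
      simp only [r']
      linear_combination (rr (f x) 1 - cst) * e0 + (rr (f x) 1) * e3
    rw [h2] at h1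
    have h3 := Van.neg h1
    rwa [neg_neg] at h3
  -- the data
  let S := C9 × (ZMod 3)ˣ
  let sH : FreeGroup (Fin m) →* S := (kk.comp f).prod (sgn.comp f)
  have hS : ∀ x, sH x = 1 ↔ kk (f x) = 1 ∧ sgn (f x) = 1 := fun x => Prod.mk_eq_one
  let ρ : FreeGroup (Fin m) → Lamˣ := fun x => lcU (mm (f x) 1)
  let ψ : FreeGroup (Fin m) → Lam := fun x => (r' (f x)).coeff n0
  have hρ : ∀ x y, sH x = 1 → sH y = 1 → ρ (x * y) = ρ x * ρ y := by
    intro x y hx _
    simp only [ρ]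
    rw [map_mul, mm_mul, ((hS x).mp hx).1, inv_one, one_mul, map_mul]
  have hψ : ∀ x y, sH x = 1 → sH y = 1 → ψ (x * y) = ψ x + ρ x * ψ y := by
    intro x y hx hy
    have hkx := ((hS x).mp hx).1
    have hky := ((hS y).mp hy).1
    have e1 : r' (f (x * y)) = r' (f x) + (mm (f x) 1 : SS) * r' (f y) := by
      simp only [r']
      rw [map_mul, mm_mul, rr_mul, hkx, inv_one, one_mul, Units.val_mul]
      ring
    simp only [ψ, ρ]
    rw [e1, HahnSeries.coeff_add]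
    congr 1
    have h2 := coeff_mul_van (van_mm (f x) (hchi x) 1) (hr' y hky)
    rw [zero_add] at h2
    rw [h2, lc_coeff _ (hchi x)]
  have hψA : ∀ x, f x ∈ A → ψ x = (rr (f x) 1).coeff n0 := by
    intro x hx
    simp only [ψ, r']
    rw [(nc_props _ hx).2.2, Units.val_one, sub_self, zero_mul, add_zero]
  have hρA : ∀ x, f x ∈ A → sH x = 1 ∧ ρ x = 1 := by
    intro x hx
    obtain ⟨h1, h2, h3⟩ := nc_props _ hx
    refine ⟨(hS x).mpr ⟨h1, h2⟩, ?_⟩
    simp only [ρ]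
    rw [h3, map_one]
  have hN : ∀ x ∈ Subgroup.normalClosure (lrels R Q τ), sH x = 1 ∧ ρ x = 1 ∧ ψ x = 0 := by
    intro x hx
    have h1 := (hker x).mpr hx
    have h2 : f x ∈ A := by rw [h1]; exact one_mem _
    refine ⟨(hρA x h2).1, (hρA x h2).2, ?_⟩
    rw [hψA x h2, h1, rr_one, HahnSeries.coeff_zero]
  have hψ1 : ψ 1 = 0 := by
    have h2 : f 1 ∈ A := by rw [map_one]; exact one_mem _
    rw [hψA 1 h2, map_one, rr_one, HahnSeries.coeff_zero]
  -- the module of values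
  have hadd : ∀ a b : Lam, (∃ x, f x ∈ A ∧ ψ x = a) → (∃ x, f x ∈ A ∧ ψ x = b) →
      ∃ x, f x ∈ A ∧ ψ x = a + b := by
    rintro a b ⟨x, hx, rfl⟩ ⟨y, hy, rfl⟩
    refine ⟨x * y, by rw [map_mul]; exact mul_mem hx hy, ?_⟩
    rw [hψ x y (hρA x hx).1 (hρA y hy).1, (hρA x hx).2, Units.val_one, one_mul]
  have hconj : ∀ (z : FreeGroup (Fin m)), sH z = 1 → ∀ a : Lam, (∃ x, f x ∈ A ∧ ψ x = a) →
      ∃ x, f x ∈ A ∧ ψ x = ρ z * a := by
    rintro z hz a ⟨x, hx, rfl⟩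
    have hzi : sH z⁻¹ = 1 := by rw [map_inv, hz, inv_one]
    refine ⟨z * x * z⁻¹, by rw [map_mul, map_mul, map_inv]; exact hAn.conj_mem _ hx _, ?_⟩
    have hzx : sH (z * x) = 1 := by rw [map_mul, hz, (hρA x hx).1, mul_one]
    rw [hψ _ _ hzx hzi, hψ _ _ hz (hρA x hx).1, hρ _ _ hz (hρA x hx).1, (hρA x hx).2, mul_one]
    have h2 := hψ z z⁻¹ hz hzi
    rw [mul_inv_cancel, hψ1] at h2
    linear_combination -h2
  have hsx1 : sH x1 = 1 ∧ ρ x1 = zU 0 := by
    constructor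
    · rw [hS, ← hx1]
      simp only [map_mul, map_inv, hkσ, kk_yy, sgn_yy]
      simp
    · simp only [ρ]
      rw [← hx1, mm_conj _ _ _ hkσ (kk_yy 1), lc_yy_one]
  have hsx2 : sH x2 = 1 ∧ ρ x2 = zU 1 := by
    constructor
    · rw [hS, ← hx2]
      simp only [map_mul, map_inv, hkσ, kk_yy, sgn_yy]
      simp
    · simp only [ρ]
      rw [← hx2, mm_conj _ _ _ hkσ (kk_yy 2), lc_yy_two]
  have hρinv : ∀ z, sH z = 1 → sH z⁻¹ = 1 ∧ ρ z⁻¹ = (ρ z)⁻¹ := by
    intro z hz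
    have hzi : sH z⁻¹ = 1 := by rw [map_inv, hz, inv_one]
    refine ⟨hzi, ?_⟩
    have h2 := hρ z z⁻¹ hz hzi
    rw [mul_inv_cancel] at h2
    have h3 : ρ 1 = 1 := by
      simp only [ρ]; rw [map_one, mm_one, map_one]
    rw [h3] at h2
    exact eq_inv_of_mul_eq_one_right h2.symm
  have hww : ∀ i : Fin 2, ∀ a : Lam, (∃ x, f x ∈ A ∧ ψ x = a) →
      ∃ x, f x ∈ A ∧ ψ x = ww i * a := by
    intro i a ha
    obtain ⟨z, hz, hz2⟩ : ∃ z, sH z = 1 ∧ ρ z = zU i := by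
      fin_cases i
      · exact ⟨x1, hsx1⟩
      · exact ⟨x2, hsx2⟩
    have h1 := hconj z hz a ha
    have h2 := hconj z⁻¹ (hρinv z hz).1 a ha
    rw [(hρinv z hz).2] at h2
    rw [hz2] at h1 h2
    have h3 := hadd _ _ (hadd _ _ h1 h2) ha
    have e : (zU i : Lam) * a + (((zU i)⁻¹ : Lamˣ) : Lam) * a + a = ww i * a := by
      unfold ww; ring
    rwa [e] at h3
  have hwp : ∀ i : Fin 2, ∀ k : ℕ, ∀ a : Lam, (∃ x, f x ∈ A ∧ ψ x = a) →
      ∃ x, f x ∈ A ∧ ψ x = ww i ^ k * a := by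
    intro i k
    induction k with
    | zero => intro a ha; simpa using ha
    | succ k ih =>
      intro a ha
      have := hww i _ (ih a ha)
      rwa [← mul_assoc, ← pow_succ'] at this
  set h0 : Lam := ψ g0 with hh0
  have hh0ne : h0 ≠ 0 := by
    rw [hh0, hψA g0 hg0A]; exact hg0
  have hα : ∀ i j : ℕ, ∃ x, f x ∈ A ∧ ψ x = (zU 0 : Lam) * (ww 0 ^ i * (ww 1 ^ j * h0)) := by
    intro i j
    have h1 := hconj x1 hsx1.1 _ (hwp 0 i _ (hwp 1 j h0 ⟨g0, hg0A, rfl⟩))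
    rwa [hsx1.2] at h1
  choose α hα1 hα2 using hα
  refine core R Q hR hQ τ sH ρ ψ hN hρ hψ ?_ ?_ α (fun _ _ => g0)
    (h0 * star h0 * ((zU 0 : Lam) - ((zU 0)⁻¹ : Lamˣ))) (T_ne_zero h0 hh0ne) ?_ ?_ ?_ ?_
  · intro x _
    exact (lead (f x) 1).2.1
  · intro x hx
    exact ((lead (f x) 1).2.2).trans ((hS x).mp hx).2
  · intro i j; exact hρA _ (hα1 i j)
  · intro i j; exact hρA _ hg0A
  · intro i j
    rw [← hker, map_mul, map_mul, map_mul, map_inv, map_inv, (GG_comm _ (hα1 i j) _ hg0A).eq]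
    group
  · intro i j
    rw [hα2, ← hh0]
    simp only [map_mul, map_pow, star_ww, star_z]
    ring

end Pool.Agent.Helper688.LPres
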