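import Mathlib

set_option autoImplicit false

namespace Pool.Agent.Helper688.LPres

section Alg

variable {A : Type*} [Ring A] [Algebra (ZMod 3) A]

theorem map_pow_mem (K : Submodule (ZMod 3) A) (σ : A →ₐ[ZMod 3] A)
    (hσ : ∀ x ∈ K, σ x ∈ K) (i : ℕ) : ∀ x ∈ K ^ i, σ x ∈ K ^ i := by
  have h1 : (K ^ i).map σ.toLinearMap ≤ K ^ i := by
    rw [Submodule.map_pow]
    have h2 : K.map σ.toLinearMap ≤ K := by
      rintro _ ⟨x, hx, rfl⟩
      exact hσ x hx
    exact pow_le_pow_left' h2 i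
  intro x hx
  exact h1 ⟨x, hx, rfl⟩

theorem shift_pow (K : Submodule (ZMod 3) A) (σ : A →ₐ[ZMod 3] A)
    (hσ : ∀ x ∈ K, σ x ∈ K) (h2 : ∀ x, σ (σ x) - σ x ∈ K ^ 2) (i : ℕ) :
    ∀ x ∈ K ^ (i + 1), σ (σ x) - σ x ∈ K ^ (i + 2) := by
  induction i with
  | zero => intro x _; exact h2 x
  | succ i ih =>
    intro x hx
    rw [pow_succ] at hx
    induction hx using Submodule.mul_induction_on' with
    | mem_mul_mem y hy z hz =>
      have h1 : σ (σ (y * z)) - σ (y * z) =
          (σ (σ y) - σ y) * σ (σ z) + σ y * (σ (σ z) - σ z) := by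
        simp only [map_mul]; noncomm_ring
      rw [h1]
      apply Submodule.add_mem
      · have := Submodule.mul_mem_mul (ih y hy) (hσ _ (hσ z hz))
        rwa [← pow_succ] at this
      · have := Submodule.mul_mem_mul (map_pow_mem K σ hσ _ y hy) (h2 z)
        rwa [← pow_add] at this
    | add x _ y _ hx hy =>
      have h1 : σ (σ (x + y)) - σ (x + y) = (σ (σ x) - σ x) + (σ (σ y) - σ y) := by
        simp only [map_add]; abel
      rw [h1]
      exact Submodule.add_mem _ hx hy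

theorem iter_mem (K : Submodule (ZMod 3) A) (hKK : K ^ 2 ≤ K) (σ : A →ₐ[ZMod 3] A)
    (hσ : ∀ x ∈ K, σ x ∈ K) (h2 : ∀ x, σ (σ x) - σ x ∈ K ^ 2) (j : ℕ) (x : A) :
    (((σ.toLinearMap * σ.toLinearMap - σ.toLinearMap : Module.End (ZMod 3) A)) ^ (j + 1)) x
      ∈ K ^ (j + 1) := by
  induction j with
  | zero =>
    rw [zero_add, pow_one, pow_one]
    exact hKK (h2 x)
  | succ j ih =>
    have h := shift_pow K σ hσ h2 j _ ih
    rw [pow_succ' (σ.toLinearMap * σ.toLinearMap - σ.toLinearMap : Module.End (ZMod 3) A)]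
    exact h

theorem sub_pow_three_pow {R : Type*} [Ring R] (h3 : (3 : R) = 0) (x y : R) (h : Commute x y)
    (e : ℕ) : (x - y) ^ (3 ^ e) = x ^ (3 ^ e) - y ^ (3 ^ e) := by
  induction e with
  | zero => simp
  | succ e ih =>
    have key : ∀ a b : R, Commute a b → (a - b) ^ 3 = a ^ 3 - b ^ 3 := by
      intro a b hab
      have h1 : (a - b) ^ 3 = a ^ 3 - b ^ 3 - 3 * (a ^ 2 * b) + 3 * (a * b ^ 2) := by
        have e1 : b * a = a * b := hab.eq.symm
        have e2 : b * a * a = a * a * b := by rw [e1, mul_assoc, e1, mul_assoc]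
        have e3 : b * b * a = a * b * b := by rw [mul_assoc, e1, ← mul_assoc, e1]
        have e4 : a * b * a = a * a * b := by rw [mul_assoc, e1, mul_assoc]
        have e5 : b * a * b = a * b * b := by rw [e1]
        calc (a - b) ^ 3 = a * a * a - a * a * b - a * b * a + a * b * b - b * a * a + b * a * b
              + b * b * a - b * b * b := by noncomm_ring
          _ = _ := by rw [e4, e2, e5, e3]; noncomm_ring
      rw [h1, h3]; simp
    rw [pow_succ, pow_mul, ih, key _ _ (h.pow_pow _ _), ← pow_mul, ← pow_mul]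

theorem period (K : Submodule (ZMod 3) A) (hKK : K ^ 2 ≤ K) (σ : A →ₐ[ZMod 3] A)
    (hσ : ∀ x ∈ K, σ x ∈ K) (h2 : ∀ x, σ (σ x) - σ x ∈ K ^ 2) (e : ℕ) (x : A) :
    (σ ^ (2 * 3 ^ e)) x - (σ ^ (3 ^ e)) x ∈ K ^ (3 ^ e) := by
  have hpow : ∀ (n : ℕ) (y : A), ((σ.toLinearMap : Module.End (ZMod 3) A) ^ n) y = (σ ^ n) y := by
    intro n
    induction n with
    | zero => intro y; rfl
    | succ n ih =>
      intro y
      rw [pow_succ, pow_succ]
      exact ih (σ y)
  obtain ⟨j, hj⟩ : ∃ j, 3 ^ e = j + 1 := ⟨3 ^ e - 1, by have := Nat.one_le_pow e 3 (by norm_num); omega⟩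
  have h1 := iter_mem K hKK σ hσ h2 j x
  rw [← hj] at h1
  have h3 : (3 : Module.End (ZMod 3) A) = 0 := by
    ext z
    have h4 : (3 : Module.End (ZMod 3) A) z = (3 : ZMod 3) • z := by
      rw [show (3 : Module.End (ZMod 3) A) = algebraMap (ZMod 3) _ 3 from
        (map_ofNat (algebraMap (ZMod 3) (Module.End (ZMod 3) A)) 3).symm]
      rfl
    rw [h4, show (3 : ZMod 3) = 0 by decide]
    simp
  rw [sub_pow_three_pow h3 _ _ (Commute.mul_left rfl rfl)] at h1
  have h5 : (σ.toLinearMap * σ.toLinearMap : Module.End (ZMod 3) A) ^ (3 ^ e) =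
      (σ.toLinearMap : Module.End (ZMod 3) A) ^ (2 * 3 ^ e) := by
    rw [← pow_two, ← pow_mul]
  rw [h5, LinearMap.sub_apply, hpow, hpow] at h1
  exact h1

end Alg

section GroupAlg

variable {F : Type*} [Group F]

open MonoidAlgebra

/-- The two-sided ideal of the group algebra over the field with three elements generated by the
elements `h - 1`, `h` in the subgroup `F₁` (if `F₁` is normal). -/
noncomputable def KK (F₁ : Subgroup F) : Submodule (ZMod 3) (MonoidAlgebra (ZMod 3) F) :=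
  Submodule.span (ZMod 3) {z | ∃ h ∈ F₁, ∃ y : F, z = (of (ZMod 3) F h - 1) * of (ZMod 3) F y}

theorem of_inv_mul (g : F) : of (ZMod 3) F g⁻¹ * of (ZMod 3) F g = 1 := by
  rw [← map_mul, inv_mul_cancel, map_one]

theorem of_mul_inv (g : F) : of (ZMod 3) F g * of (ZMod 3) F g⁻¹ = 1 := by
  rw [← map_mul, mul_inv_cancel, map_one]

theorem KK_left (F₁ : Subgroup F) [F₁.Normal] {z : MonoidAlgebra (ZMod 3) F} (hz : z ∈ KK F₁)
    (w : MonoidAlgebra (ZMod 3) F) : w * z ∈ KK F₁ := by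
  induction w using MonoidAlgebra.induction_on with
  | of g =>
    unfold KK at hz ⊢
    induction hz using Submodule.span_induction with
    | mem x hx =>
      obtain ⟨h, hh, y, rfl⟩ := hx
      apply Submodule.subset_span
      refine ⟨g * h * g⁻¹, Subgroup.Normal.conj_mem inferInstance h hh g, g * y, ?_⟩
      simp only [map_mul]
      calc of (ZMod 3) F g * ((of (ZMod 3) F h - 1) * of (ZMod 3) F y)
          = of (ZMod 3) F g * of (ZMod 3) F h * 1 * of (ZMod 3) F y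
            - of (ZMod 3) F g * of (ZMod 3) F y := by noncomm_ring
        _ = of (ZMod 3) F g * of (ZMod 3) F h * (of (ZMod 3) F g⁻¹ * of (ZMod 3) F g) *
            of (ZMod 3) F y - of (ZMod 3) F g * of (ZMod 3) F y := by rw [of_inv_mul]
        _ = _ := by noncomm_ring
    | zero => rw [mul_zero]; exact Submodule.zero_mem _
    | add x y _ _ hx hy => rw [mul_add]; exact Submodule.add_mem _ hx hy
    | smul c x _ hx => rw [mul_smul_comm]; exact Submodule.smul_mem _ _ hx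
  | add x y hx hy => rw [add_mul]; exact Submodule.add_mem _ hx hy
  | smul r x hx => rw [smul_mul_assoc]; exact Submodule.smul_mem _ _ hx

theorem KK_right (F₁ : Subgroup F) {z : MonoidAlgebra (ZMod 3) F} (hz : z ∈ KK F₁)
    (w : MonoidAlgebra (ZMod 3) F) : z * w ∈ KK F₁ := by
  induction w using MonoidAlgebra.induction_on with
  | of g =>
    unfold KK at hz ⊢
    induction hz using Submodule.span_induction with
    | mem x hx =>
      obtain ⟨h, hh, y, rfl⟩ := hx
      apply Submodule.subset_span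
      refine ⟨h, hh, y * g, ?_⟩
      rw [map_mul, mul_assoc]
    | zero => rw [zero_mul]; exact Submodule.zero_mem _
    | add x y _ _ hx hy => rw [add_mul]; exact Submodule.add_mem _ hx hy
    | smul c x _ hx => rw [smul_mul_assoc]; exact Submodule.smul_mem _ _ hx
  | add x y hx hy => rw [mul_add]; exact Submodule.add_mem _ hx hy
  | smul r x hx => rw [mul_smul_comm]; exact Submodule.smul_mem _ _ hx

theorem KK_pow_right (F₁ : Subgroup F) (i : ℕ) {z : MonoidAlgebra (ZMod 3) F}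
    (hz : z ∈ KK F₁ ^ (i + 1)) (w : MonoidAlgebra (ZMod 3) F) : z * w ∈ KK F₁ ^ (i + 1) := by
  rw [pow_succ] at hz ⊢
  induction hz using Submodule.mul_induction_on' with
  | mem_mul_mem y hy z hz => rw [mul_assoc]; exact Submodule.mul_mem_mul hy (KK_right F₁ hz w)
  | add x _ y _ hx hy => rw [add_mul]; exact Submodule.add_mem _ hx hy

theorem KK_pow_left (F₁ : Subgroup F) [F₁.Normal] (i : ℕ) {z : MonoidAlgebra (ZMod 3) F}
    (hz : z ∈ KK F₁ ^ (i + 1)) (w : MonoidAlgebra (ZMod 3) F) : w * z ∈ KK F₁ ^ (i + 1) := by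
  rw [pow_succ'] at hz ⊢
  induction hz using Submodule.mul_induction_on' with
  | mem_mul_mem y hy z hz => rw [← mul_assoc]; exact Submodule.mul_mem_mul (KK_left F₁ hy w) hz
  | add x _ y _ hx hy => rw [mul_add]; exact Submodule.add_mem _ hx hy

theorem KK_sq_le (F₁ : Subgroup F) : KK F₁ ^ 2 ≤ KK F₁ := by
  rw [pow_two, Submodule.mul_le]
  intro m hm n _
  exact KK_right F₁ hm n

theorem KK_map (F₁ : Subgroup F) (τ : F →* F) (hτ : ∀ h ∈ F₁, τ h ∈ F₁) :
    ∀ x ∈ KK F₁, mapDomainAlgHom (ZMod 3) (ZMod 3) τ x ∈ KK F₁ := by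
  intro x hx
  unfold KK at hx ⊢
  induction hx using Submodule.span_induction with
  | mem x hx =>
    obtain ⟨h, hh, y, rfl⟩ := hx
    apply Submodule.subset_span
    refine ⟨τ h, hτ h hh, τ y, ?_⟩
    simp only [map_mul, map_sub, map_one]
    congr 1
    · congr 1
      simp [mapDomainAlgHom]
    · simp [mapDomainAlgHom]
  | zero => rw [map_zero]; exact Submodule.zero_mem _
  | add x y _ _ hx hy => rw [map_add]; exact Submodule.add_mem _ hx hy
  | smul c x _ hx => rw [map_smul]; exact Submodule.smul_mem _ _ hx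

theorem of_sub_one_mem (F₁ : Subgroup F) {h : F} (hh : h ∈ F₁) :
    of (ZMod 3) F h - 1 ∈ KK F₁ := by
  apply Submodule.subset_span
  exact ⟨h, hh, 1, by rw [map_one, mul_one]⟩

/-- elements of `F₁` congruent to `1` modulo the square of `KK F₁`. -/
noncomputable def DD (F₁ : Subgroup F) : Subgroup F₁ :=
  MonoidHom.ker (G := F₁) (M := Multiplicative (MonoidAlgebra (ZMod 3) F ⧸ (KK F₁ ^ 2)))
    { toFun := fun h => Multiplicative.ofAdd ((KK F₁ ^ 2).mkQ (of (ZMod 3) F (h : F) - 1))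
      map_one' := by
        rw [Subgroup.coe_one, map_one, sub_self, map_zero, ofAdd_zero]
      map_mul' := by
        intro x y
        rw [← ofAdd_add, ← map_add]
        congr 1
        rw [← sub_eq_zero, ← map_sub]
        apply (Submodule.Quotient.mk_eq_zero _).mpr
        have h1 : of (ZMod 3) F ((x * y : F₁) : F) - 1 -
            (of (ZMod 3) F (x : F) - 1 + (of (ZMod 3) F (y : F) - 1)) =
            (of (ZMod 3) F (x : F) - 1) * (of (ZMod 3) F (y : F) - 1) := by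
          rw [Subgroup.coe_mul, map_mul]; noncomm_ring
        rw [h1, pow_two]
        exact Submodule.mul_mem_mul (of_sub_one_mem F₁ x.2) (of_sub_one_mem F₁ y.2) }

theorem mem_DD (F₁ : Subgroup F) (h : F₁) :
    h ∈ DD F₁ ↔ of (ZMod 3) F (h : F) - 1 ∈ KK F₁ ^ 2 := by
  unfold DD
  rw [MonoidHom.mem_ker]
  change Multiplicative.ofAdd ((KK F₁ ^ 2).mkQ (of (ZMod 3) F (h : F) - 1)) = 1 ↔ _
  rw [ofAdd_eq_one]
  exact Submodule.Quotient.mk_eq_zero _

theorem DD_finite (F₁ : Subgroup F) [Group.FG F₁] : (DD F₁).FiniteIndex := by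
  unfold DD
  have hcomm : ∀ (f : F₁ →* Multiplicative (MonoidAlgebra (ZMod 3) F ⧸ (KK F₁ ^ 2))),
      f.ker.FiniteIndex := by
    intro f
    have : Finite f.range := by
      apply CommGroup.finite_of_fg_isMulTorsion
      intro x
      rw [isOfFinOrder_iff_pow_eq_one]
      refine ⟨3, by norm_num, ?_⟩
      apply Subtype.ext
      rw [Subgroup.coe_pow, Subgroup.coe_one]
      apply Multiplicative.toAdd.injective
      rw [toAdd_pow, toAdd_one]
      have : (3 : ℕ) • (Multiplicative.toAdd (x : Multiplicative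
          (MonoidAlgebra (ZMod 3) F ⧸ (KK F₁ ^ 2)))) = (3 : ZMod 3) • _ :=
        (Nat.cast_smul_eq_nsmul (ZMod 3) 3 _).symm
      rw [this, show (3 : ZMod 3) = 0 by decide, zero_smul]
    infer_instance
  exact hcomm _

/-- The subgroup of `F` of the elements of `F₁` congruent to `1` modulo the square of `KK F₁`. -/
noncomputable def DDF (F₁ : Subgroup F) : Subgroup F := (DD F₁).map F₁.subtype

theorem mem_DDF (F₁ : Subgroup F) (x : F) :
    x ∈ DDF F₁ ↔ x ∈ F₁ ∧ of (ZMod 3) F x - 1 ∈ KK F₁ ^ 2 := by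
  unfold DDF
  constructor
  · rintro ⟨y, hy, rfl⟩
    exact ⟨y.2, (mem_DD F₁ y).mp hy⟩
  · rintro ⟨h1, h2⟩
    exact ⟨⟨x, h1⟩, (mem_DD F₁ ⟨x, h1⟩).mpr h2, rfl⟩

theorem DDF_finite (F₁ : Subgroup F) [Group.FG F] [F₁.FiniteIndex] : (DDF F₁).FiniteIndex := by
  have : Group.FG F₁ := Subgroup.fg_of_index_ne_zero F₁
  have h1 := DD_finite F₁
  constructor
  unfold DDF
  rw [Subgroup.index_map_subtype]
  exact mul_ne_zero h1.index_ne_zero (Subgroup.FiniteIndex.index_ne_zero)

theorem DDF_normal (F₁ : Subgroup F) [F₁.Normal] : (DDF F₁).Normal := by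
  constructor
  intro n hn g
  rw [mem_DDF] at hn ⊢
  refine ⟨Subgroup.Normal.conj_mem inferInstance n hn.1 g, ?_⟩
  have h1 : of (ZMod 3) F (g * n * g⁻¹) - 1 =
      of (ZMod 3) F g * (of (ZMod 3) F n - 1) * of (ZMod 3) F g⁻¹ := by
    rw [map_mul, map_mul]
    calc _ = of (ZMod 3) F g * of (ZMod 3) F n * of (ZMod 3) F g⁻¹ -
          of (ZMod 3) F g * of (ZMod 3) F g⁻¹ := by rw [of_mul_inv]
      _ = _ := by noncomm_ring
  rw [h1]
  exact KK_pow_right F₁ 1 (KK_pow_left F₁ 1 hn.2 _) _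

theorem exists_idem {n : ℕ} (F₁ : Subgroup (FreeGroup (Fin n))) [F₁.Normal] [F₁.FiniteIndex]
    (τ : Monoid.End (FreeGroup (Fin n))) :
    ∃ k, 1 ≤ k ∧ ∀ x : FreeGroup (Fin n), of (ZMod 3) _ ((τ ^ k) ((τ ^ k) x)) -
      of (ZMod 3) _ ((τ ^ k) x) ∈ KK F₁ ^ 2 := by
  have hfin := DDF_finite F₁
  have hnorm := DDF_normal F₁
  have hF : Finite (FreeGroup (Fin n) →* FreeGroup (Fin n) ⧸ DDF F₁) := by
    have : Finite (FreeGroup (Fin n) ⧸ DDF F₁) := inferInstance
    exact Finite.of_equiv _ (FreeGroup.lift (α := Fin n) (β := FreeGroup (Fin n) ⧸ DDF F₁))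
  obtain ⟨i, j, hij, heq⟩ := Finite.exists_ne_map_eq_of_infinite
    (fun j : ℕ => (QuotientGroup.mk' (DDF F₁)).comp (τ ^ j : Monoid.End (FreeGroup (Fin n))))
  wlog hlt : i < j generalizing i j
  · exact this j i (Ne.symm hij) heq.symm (by omega)
  obtain ⟨c, hc, rfl⟩ : ∃ c, 0 < c ∧ j = i + c := ⟨j - i, by omega, by omega⟩
  have h1 : ∀ k, i ≤ k → ∀ x, (QuotientGroup.mk' (DDF F₁)) ((τ ^ k) x) =
      (QuotientGroup.mk' (DDF F₁)) ((τ ^ (k + c)) x) := by
    intro k hk x
    obtain ⟨d, rfl⟩ := Nat.exists_eq_add_of_le hk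
    have h2 := DFunLike.congr_fun heq ((τ ^ d) x)
    have e1 : (τ ^ (i + d)) x = (τ ^ i) ((τ ^ d) x) := by rw [pow_add]; rfl
    have e2 : (τ ^ (i + d + c)) x = (τ ^ (i + c)) ((τ ^ d) x) := by
      rw [show i + d + c = (i + c) + d by ring, pow_add]; rfl
    rw [e1, e2]
    exact h2
  have h2 : ∀ m k, i ≤ k → ∀ x, (QuotientGroup.mk' (DDF F₁)) ((τ ^ k) x) =
      (QuotientGroup.mk' (DDF F₁)) ((τ ^ (k + c * m)) x) := by
    intro m
    induction m with
    | zero => intro k _ x; rfl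
    | succ m ih =>
      intro k hk x
      rw [ih k hk x, h1 (k + c * m) (by omega) x, show k + c * m + c = k + c * (m + 1) by ring]
  refine ⟨c * (i + 1), ?_, ?_⟩
  · exact Nat.one_le_iff_ne_zero.mpr (Nat.mul_ne_zero hc.ne' (Nat.succ_ne_zero i))
  intro x
  have hle : i ≤ c * (i + 1) := by
    calc i ≤ 1 * (i + 1) := by omega
      _ ≤ c * (i + 1) := Nat.mul_le_mul_right _ hc
  have h3 := h2 (i + 1) (c * (i + 1)) hle x
  have e1 : (τ ^ (c * (i + 1) + c * (i + 1))) x = (τ ^ (c * (i + 1))) ((τ ^ (c * (i + 1))) x) := by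
    rw [pow_add]; rfl
  rw [e1] at h3
  have h4 : ((τ ^ (c * (i + 1))) x)⁻¹ * (τ ^ (c * (i + 1))) ((τ ^ (c * (i + 1))) x) ∈ DDF F₁ :=
    QuotientGroup.eq.mp h3
  rw [mem_DDF] at h4
  have h5 := KK_pow_left F₁ 1 h4.2 (of (ZMod 3) _ ((τ ^ (c * (i + 1))) x))
  have h6 : of (ZMod 3) _ ((τ ^ (c * (i + 1))) x) *
      (of (ZMod 3) _ (((τ ^ (c * (i + 1))) x)⁻¹ * (τ ^ (c * (i + 1))) ((τ ^ (c * (i + 1))) x)) - 1) =
      of (ZMod 3) _ ((τ ^ (c * (i + 1))) ((τ ^ (c * (i + 1))) x)) -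
        of (ZMod 3) _ ((τ ^ (c * (i + 1))) x) := by
    rw [mul_sub, ← map_mul, mul_inv_cancel_left, mul_one]
  rw [h6] at h5
  exact h5

end GroupAlg

end Pool.Agent.Helper688.LPres
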